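import Pool.Agent.Helper64.Rig.Goals

/-!
# Rigid curves in projective space: StmtArtin, StmtSplit
-/

namespace Pool.Agent.Helper64.Rig

open MvPolynomial Module

set_option linter.unusedSectionVars false

theorem lin_one' {σ : Type} [Fintype σ] [DecidableEq σ] {R : Type} [CommRing R]
    (F : MvPolynomial σ R) : lin (1 : Matrix σ σ R) F = F := by
  have : lin (1 : Matrix σ σ R) = AlgHom.id R _ := by
    apply MvPolynomial.algHom_ext
    intro i
    simp only [lin, aeval_X, AlgHom.id_apply]
    rw [Finset.sum_eq_single i]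
    · simp
    · intro j _ hj
      rw [Matrix.one_apply_ne (Ne.symm hj)]
      simp
    · simp
  rw [this]
  rfl

theorem Triv.mono {σ : Type} [Fintype σ] [DecidableEq σ] {R : Type} [CommRing R] [Algebra ℂ R]
    {J : Ideal (MvPolynomial σ R)} {I : Ideal (MvPolynomial σ ℂ)} {x₀ : R →ₐ[ℂ] ℂ} {m₀ : ℕ}
    {𝔠 𝔡 : Ideal R} (h : Triv J I x₀ m₀ 𝔠) (hle : 𝔠 ≤ 𝔡) : Triv J I x₀ m₀ 𝔡 := by
  obtain ⟨g, hg, h⟩ := h
  exact ⟨g, hg, fun m hm G hG hom =>
    (sup_le_sup (le_refl J) (Ideal.map_mono hle) : _ ≤ J ⊔ 𝔡.map (C : R →+* MvPolynomial σ R))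
      (h m hm G hG hom)⟩

theorem pf_Artin (hLift : StmtLift) : StmtArtin := by
  intro σ _ _ R _ _ _ J I x₀ m₀ hF hI k
  set 𝔪 := RingHom.ker x₀ with h𝔪
  have h1 : Triv J I x₀ m₀ 𝔪 := by
    refine ⟨1, fun i j => ?_, fun m hm G hG hom => ?_⟩
    · by_cases hij : i = j
      · subst hij; simp
      · rw [Matrix.one_apply_ne hij, Matrix.one_apply_ne hij, map_zero]
    · rw [lin_one']
      have h2 := (hF.fib m hm G hom).2 hG
      have hsurj : Function.Surjective (MvPolynomial.map (σ := σ) (x₀ : R →+* ℂ)) := by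
        apply MvPolynomial.map_surjective
        intro c
        exact ⟨algebraMap ℂ R c, by simp⟩
      rw [fibre, Ideal.mem_map_iff_of_surjective _ hsurj] at h2
      obtain ⟨j, hj, hjG⟩ := h2
      have h3 : MvPolynomial.map (algebraMap ℂ R) G - j ∈ 𝔪.map (C : R →+* MvPolynomial σ R) := by
        rw [mem_map_C_iff]
        intro d
        rw [coeff_sub, coeff_map, h𝔪, RingHom.mem_ker, map_sub]
        have := congrArg (coeff d) hjG
        rw [coeff_map] at this
        simp only [RingHom.coe_coe] at this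
        rw [this]
        simp
      have h4 := Ideal.add_mem (J ⊔ 𝔪.map (C : R →+* MvPolynomial σ R))
        (Ideal.mem_sup_left hj) (Ideal.mem_sup_right h3)
      rwa [add_sub_cancel] at h4
  induction k with
  | zero =>
    rw [pow_zero, Ideal.one_eq_top]
    exact h1.mono le_top
  | succ k ih =>
    rcases Nat.eq_zero_or_pos k with rfl | hk
    · rwa [zero_add, pow_one]
    have hfg : (𝔪 ^ k).FG := IsNoetherian.noetherian _
    obtain ⟨s, hs⟩ := hfg
    have key : ∀ t : Finset R, t ⊆ s → Triv J I x₀ m₀ (𝔪 ^ (k + 1) ⊔ Ideal.span (t : Set R)) →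
        Triv J I x₀ m₀ (𝔪 ^ (k + 1)) := by
      classical
      intro t
      induction t using Finset.induction_on with
      | empty =>
        intro _ h
        simpa using h
      | insert a t ha iht =>
        intro hts h
        apply iht ((Finset.subset_insert a t).trans hts)
        have hle : ∀ u : Finset R, u ⊆ s → 𝔪 ^ (k + 1) ⊔ Ideal.span (u : Set R) ≤ 𝔪 ^ k := by
          intro u hu
          apply sup_le (Ideal.pow_le_pow_right (Nat.le_succ k))
          rw [← hs]
          exact Ideal.span_mono (by exact_mod_cast hu)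
        refine hLift σ R J I x₀ m₀ hF hI (𝔪 ^ (k + 1) ⊔ Ideal.span ((insert a t : Finset R) : Set R))
          (𝔪 ^ (k + 1) ⊔ Ideal.span (t : Set R)) a ?_ ?_ ?_ h
        · exact (hle _ hts).trans (Ideal.pow_le_self hk.ne')
        · have := Ideal.mul_mono_right (I := 𝔪) (hle _ hts)
          rw [← pow_succ'] at this
          exact this.trans le_sup_left
        · rw [Finset.coe_insert, Ideal.span_insert, sup_comm (Ideal.span {a}), sup_assoc]
    apply key s subset_rfl
    refine ih.mono ?_
    rw [← hs]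
    exact le_sup_right

theorem pf_Split : StmtSplit := by
  intro σ _ _ R _ _ J m hflat
  have hfin : Module.Finite R (homogeneousSubmodule σ R m) :=
    Module.Finite.iff_fg.2 (homogeneousSubmodule_fg _ _ _)
  have hfp : Module.FinitePresentation R (homogeneousSubmodule σ R m ⧸ part J m) :=
    Module.finitePresentation_of_finite R _
  have hproj : Module.Projective R (homogeneousSubmodule σ R m ⧸ part J m) :=
    Module.Flat.projective_of_finitePresentation
  obtain ⟨t, ht⟩ := Module.projective_lifting_property (part J m).mkQ LinearMap.id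
    (Submodule.mkQ_surjective _)
  let c : MvPolynomial σ R →ₗ[R] homogeneousSubmodule σ R m :=
    (homogeneousComponent m).codRestrict _ fun F => homogeneousComponent_isHomogeneous m F
  refine ⟨(homogeneousSubmodule σ R m).subtype ∘ₗ t ∘ₗ (part J m).mkQ ∘ₗ c, fun z hz => ?_⟩
  have hcz : c z = ⟨z, hz⟩ := Subtype.ext (by
    change homogeneousComponent m z = z
    rw [homogeneousComponent_of_mem hz, if_pos rfl])
  simp only [LinearMap.comp_apply, hcz, Submodule.subtype_apply]
  refine ⟨(t _).2, ?_, fun hzJ => ?_⟩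
  · have h1 : (part J m).mkQ (⟨z, hz⟩ - t ((part J m).mkQ ⟨z, hz⟩)) = 0 := by
      rw [map_sub]
      have := LinearMap.congr_fun ht ((part J m).mkQ ⟨z, hz⟩)
      simp only [LinearMap.comp_apply, LinearMap.id_apply] at this
      rw [this, sub_self]
    rw [Submodule.mkQ_apply, Submodule.Quotient.mk_eq_zero] at h1
    exact h1
  · have h1 : (part J m).mkQ ⟨z, hz⟩ = 0 := by
      rw [Submodule.mkQ_apply, Submodule.Quotient.mk_eq_zero]
      exact hzJ
    rw [h1, map_zero]
    rfl

end Pool.Agent.Helper64.Rig
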