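import Pool.Agent.Helper64.Rig.Assembly0
import Pool.Agent.Helper50.Rig.TanUp
import Pool.Agent.Helper5.Rig.Cop
import Pool.Agent.Helper11.Rig.LinB
import Pool.Agent.Helper52.Rig.LinAC
import Pool.Agent.Helper52.Rig.Dim

/-!
# Rigid curves in projective space: the final assembly
-/

namespace Pool.Agent.Helper64.Rig

open MvPolynomial

theorem final (ζ : ℂ) (hζ : IsPrimitiveRoot ζ 5) :
    ∃ I : Ideal (MvPolynomial (Fin 3 × Fin 5) ℂ),
      (∀ (i : Fin 3) (k : Fin 5), X (i, k) ^ 5 + (∏ l : Fin 5, X (i + 1, l)) +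
        C (ζ ^ (k : ℕ)) * ∏ l : Fin 5, X (i + 2, l) ∈ I) ∧
      IsSmoothCurve I ∧ Nondegenerate I ∧ Rigid I ∧ ¬ IsRationalNormal I := by
  have hKer : StmtKer := Helper51.Rig.pf_Ker
  exact final0 (Helper52.Rig.pf_Dim hKer) (Helper5.Rig.pf_Cop hKer) (Helper52.Rig.pf_LinA hKer)
    (Helper11.Rig.pf_LinB hKer) (Helper52.Rig.pf_LinC hKer)
    (Helper50.Rig.pf_TanUp Helper37.Rig.pf_Loc) ζ hζ

end Pool.Agent.Helper64.Rig
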