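import Pool.Agent.Helper64.Rig.Basics

/-!
# Rigid curves in projective space: the covering curve is a smooth nondegenerate curve (assembly)
-/

namespace Pool.Agent.Helper64.Rig

open MvPolynomial Module

set_option linter.unusedSectionVars false

variable {K : Type} [Field K] [Algebra ℂ K] {ζ : ℂ} {x : Jx → K}

theorem mem_II {G : MvPolynomial Jx ℂ} : G ∈ II x ↔ aeval x G = 0 := Iff.rfl

theorem II_homog (h : Cov ζ x) : Homog (II x) := fun G hG d => h.graded G hG d

theorem II_prime : (II x).IsPrime := RingHom.ker_isPrime _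

theorem EE_mem_II (h : Cov ζ x) (j : Jx) : EE ζ j ∈ II x := by
  rw [mem_II]
  have := h.rel j
  simpa [EE, el, pr] using this

theorem smooth_of (hUp : StmtTanUp) (hLo : StmtTanLo) (h : Cov ζ x) :
    ∀ p : Jx → ℂ, p ≠ 0 → (∀ G ∈ II x, eval p G = 0) →
      Module.finrank ℂ (Submodule.span ℂ
        {v : Jx → ℂ | ∃ G ∈ II x, v = fun i => eval p (pderiv i G)}) + 2 = Fintype.card Jx := by
  intro p hp hzero
  set V := Submodule.span ℂ {v : Jx → ℂ | ∃ G ∈ II x, v = fun i => eval p (pderiv i G)} with hV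
  let e := dotProductEquiv ℂ Jx
  let Φ : Subspace ℂ (Dual ℂ (Jx → ℂ)) := V.map (e : (Jx → ℂ) →ₗ[ℂ] Dual ℂ (Jx → ℂ))
  have h1 : finrank ℂ Φ = finrank ℂ V := LinearEquiv.finrank_map_eq e V
  have h2 := Subspace.finrank_add_finrank_dualCoannihilator_eq Φ
  have hU : ∀ w : Jx → ℂ, w ∈ Submodule.dualCoannihilator Φ ↔
      ∀ G ∈ II x, ∑ i, w i * eval p (pderiv i G) = 0 := by
    intro w
    rw [Submodule.mem_dualCoannihilator]
    constructor
    · intro hw G hG
      have := hw (e (fun i => eval p (pderiv i G))) ⟨_, Submodule.subset_span ⟨G, hG, rfl⟩, rfl⟩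
      simp only [e, dotProductEquiv_apply_apply, dotProduct] at this
      rw [← this]
      exact Finset.sum_congr rfl fun i _ => mul_comm _ _
    · rintro hw _ ⟨v, hv, rfl⟩
      change e v w = 0
      simp only [e, dotProductEquiv_apply_apply, dotProduct]
      have hle : V ≤ LinearMap.ker ((dotProductEquiv ℂ Jx) w) := by
        rw [hV, Submodule.span_le]
        rintro _ ⟨G, hG, rfl⟩
        simp only [SetLike.mem_coe, LinearMap.mem_ker, dotProductEquiv_apply_apply, dotProduct]
        exact hw G hG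
      have := hle hv
      simp only [LinearMap.mem_ker, dotProductEquiv_apply_apply, dotProduct] at this
      rw [← this]
      exact Finset.sum_congr rfl fun i _ => mul_comm _ _
  have h3 : finrank ℂ (Submodule.dualCoannihilator Φ) = 2 := by
    apply le_antisymm
    · refine hLo ζ h.prim p hp (fun j => hzero _ (EE_mem_II h j)) _ fun u hu j => ?_
      exact (hU u).1 hu _ (EE_mem_II h j)
    · obtain ⟨w₁, w₂, hind, hw⟩ := hUp K ζ x h p hp hzero
      have h4 : Submodule.span ℂ (Set.range ![w₁, w₂]) ≤ Submodule.dualCoannihilator Φ := by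
        rw [Submodule.span_le]
        rintro _ ⟨i, rfl⟩
        fin_cases i
        · exact (hU w₁).2 fun G hG => (hw G hG).1
        · exact (hU w₂).2 fun G hG => (hw G hG).2
      have h5 := Submodule.finrank_mono h4
      rw [finrank_span_eq_card hind] at h5
      simpa using h5
  have h6 : finrank ℂ (Jx → ℂ) = Fintype.card Jx := Module.finrank_fintype_fun_eq_card ℂ
  omega

theorem nondeg_of (hN : StmtNondeg) (h : Cov ζ x) : Nondegenerate (II x) := by
  intro G hG hom
  have h1 : G = ∑ i, C (coeff (Finsupp.single i 1) G) * X i := by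
    have hm : G ∈ homogeneousSubmodule Jx ℂ 1 := hom
    rw [homogeneousSubmodule_one_eq_span_X] at hm
    rw [Submodule.mem_span_range_iff_exists_fun] at hm
    obtain ⟨c, rfl⟩ := hm
    refine Finset.sum_congr rfl fun i _ => ?_
    rw [smul_eq_C_mul]
    congr 2
    rw [coeff_sum, Finset.sum_eq_single i]
    · simp [coeff_smul]
    · intro j _ hj
      rw [coeff_smul, coeff_X, if_neg, smul_zero]
      intro h
      exact hj (Finsupp.single_left_injective one_ne_zero h)
    · simp
  rw [mem_II, h1] at hG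
  simp only [map_sum, map_mul, algHom_C, aeval_X] at hG
  have h2 := hN K ζ x h (fun i => coeff (Finsupp.single i 1) G) hG
  rw [h1]
  exact Finset.sum_eq_zero fun i _ => by
    have := congrFun h2 i
    simp only [Pi.zero_apply] at this
    rw [this, map_zero, zero_mul]

theorem curve_of (hKrull : StmtKrull) (hUp : StmtTanUp) (hLo : StmtTanLo) (h : Cov ζ x) :
    IsSmoothCurve (II x) :=
  ⟨II_homog h, II_prime, hKrull K ζ x h, smooth_of hUp hLo h⟩

/-- **The final statement**, assembled from the goals. -/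
theorem final_of (hEx : StmtEx) (hKrull : StmtKrull) (hUp : StmtTanUp) (hLo : StmtTanLo)
    (hN : StmtNondeg) (hR : StmtNotRNC) (hInf : StmtInf) (hRig : StmtRigidOf) (ζ : ℂ)
    (hζ : IsPrimitiveRoot ζ 5) :
    ∃ I : Ideal (MvPolynomial (Fin 3 × Fin 5) ℂ),
      (∀ (i : Fin 3) (k : Fin 5), X (i, k) ^ 5 + (∏ l : Fin 5, X (i + 1, l)) +
        C (ζ ^ (k : ℕ)) * ∏ l : Fin 5, X (i + 2, l) ∈ I) ∧
      IsSmoothCurve I ∧ Nondegenerate I ∧ Rigid I ∧ ¬ IsRationalNormal I := by
  obtain ⟨K, _, _, x, h⟩ := hEx ζ hζ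
  refine ⟨II x, fun i k => ?_, curve_of hKrull hUp hLo h, nondeg_of hN h,
    hRig Jx (II x) (II_homog h) (hInf K ζ x h), hR K ζ x h⟩
  have := EE_mem_II h (i, k)
  simpa [EE, el, pr, add_assoc, algebraMap_eq] using this

end Pool.Agent.Helper64.Rig
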