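import Pool.Agent.Helper64.Rig.Small

/-!
# Rigid curves in projective space: StmtDp, StmtPole, StmtPsi, StmtCod
-/

namespace Pool.Agent.Helper64.Rig

open MvPolynomial Module

set_option linter.unusedSectionVars false

section
variable {K : Type} [Field K] [Algebra ℂ K] {ζ : ℂ} {x : Jx → K}

theorem eval_FF (ζ ξ c : ℂ) (hζ : IsPrimitiveRoot ζ 5) (h0 : ξ ^ 5 + c ^ 5 + 1 = 0) (i : ℕ) :
    eval ![ζ ^ i * ξ, c, 1] FF = 0 := by
  simp only [FF, Fin.sum_univ_three, map_add, map_pow, eval_X]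
  simp only [Matrix.cons_val_zero, Matrix.cons_val_one, Matrix.cons_val_two, Matrix.head_cons,
    Matrix.tail_cons, one_pow, Matrix.cons_val]
  rw [mul_pow, ← pow_mul, mul_comm i 5, pow_mul, hζ.pow_eq_one, one_pow, one_mul]
  exact h0

theorem u_ne (h : Cov ζ x) (c : ℂ) : pr x 1 - algebraMap ℂ K c * pr x 2 ≠ 0 := by
  intro h0
  have := indep_lin h (G := X 0 - C c * X 1) (by
    simp only [map_sub, map_mul, aeval_X, algHom_C, Matrix.cons_val_zero, Matrix.cons_val_one]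
    exact h0)
  have h3 := congrArg (eval ![1, 0]) this
  simp at h3

theorem u_mem (c : ℂ) : pr x 1 - algebraMap ℂ K c * pr x 2 ∈ AA x 1 :=
  Submodule.sub_mem _ (pr_mem_AA _) (const_mul_mem_AA _ (pr_mem_AA _))

end

theorem pf_Dp (hKer : StmtKer) (hLine : StmtLine) : StmtDp := by
  intro K _ _ ζ x h ξ c hξ h0 d G hG hGne g q k
  induction k with
  | zero =>
    intro h1 _
    simpa using h1
  | succ k ih =>
    intro h1 h2
    obtain ⟨Ga, hGa, ha⟩ := mem_AA.1 h1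
    obtain ⟨Gb, hGb, hb⟩ := mem_AA.1 h2
    have hdvd : FF ∣ (X 1 - C c * X 2) ^ (k + 1) * Gb - G * Ga := by
      apply (hKer K ζ x h).1
      simp only [map_sub, map_mul, map_pow, aeval_X, algHom_C, ha, hb]
      ring
    have hev : ∀ i : Fin 5, eval ![ζ ^ (i : ℕ) * ξ, c, 1] Ga = 0 := by
      intro i
      obtain ⟨M, hM⟩ := hdvd
      have h3 := congrArg (eval ![ζ ^ (i : ℕ) * ξ, c, 1]) hM
      rw [map_mul, eval_FF ζ ξ c h.prim h0, zero_mul] at h3
      simp only [map_sub, map_mul, map_pow, eval_X, eval_C] at h3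
      simp only [Matrix.cons_val_one, Matrix.cons_val, mul_one, sub_self] at h3
      rw [zero_pow (Nat.succ_ne_zero k), zero_mul, zero_sub, neg_eq_zero] at h3
      exact (mul_eq_zero.1 h3).resolve_left (hGne i)
    obtain ⟨G', hG', hdvd'⟩ := hLine ζ ξ c h.prim hξ h0 (q + k) Ga (by rw [add_assoc]; exact hGa) hev
    apply ih _ h2
    refine mem_AA.2 ⟨G', hG', ?_⟩
    obtain ⟨M, hM⟩ := hdvd'
    have h3 := congrArg (aeval (pr x)) hM
    rw [map_mul, aeval_FF h, zero_mul] at h3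
    simp only [map_sub, map_mul, aeval_X, algHom_C, ha] at h3
    have h4 := u_ne h c
    apply mul_left_cancel₀ h4
    rw [← mul_assoc, ← pow_succ']
    linear_combination -h3

theorem not_dvd_of_ne {K : Type} [Field K] [Algebra ℂ K] {ζ : ℂ} {x : Jx → K} (h : Cov ζ x)
    {G : MvPolynomial (Fin 3) ℂ} (hG : aeval (pr x) G ≠ 0) : ¬ FF ∣ G := by
  rintro ⟨M, rfl⟩
  apply hG
  rw [map_mul, aeval_FF h, zero_mul]

/-- The finite set of the bad values for a form. -/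
def badSet (G : MvPolynomial (Fin 3) ℂ) : Set ℂ :=
  {c : ℂ | ∃ ξ : ℂ, ξ ^ 5 + c ^ 5 + 1 = 0 ∧ eval ![ξ, c, 1] G = 0} ∪ {c : ℂ | c ^ 5 = -1}

theorem badSet_finite (hGen : StmtGen) {d : ℕ} {G : MvPolynomial (Fin 3) ℂ}
    (hG : G.IsHomogeneous d) (hn : ¬ FF ∣ G) : (badSet G).Finite := by
  refine (hGen d G hG hn).union ?_
  have : {c : ℂ | c ^ 5 = -1} ⊆ ((Polynomial.X ^ 5 - Polynomial.C (-1 : ℂ)).roots.toFinset : Set ℂ) := by
    intro c hc
    simp only [Finset.mem_coe, Multiset.mem_toFinset]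
    rw [Polynomial.mem_roots (Polynomial.X_pow_sub_C_ne_zero (by norm_num) _)]
    simp only [Polynomial.IsRoot, Polynomial.eval_sub, Polynomial.eval_pow, Polynomial.eval_X,
      Polynomial.eval_C]
    rw [Set.mem_ofPred_eq] at hc
    rw [hc, sub_self]
  exact (Finset.finite_toSet _).subset this

theorem exists_xi {c : ℂ} (hc : c ^ 5 ≠ -1) : ∃ ξ : ℂ, ξ ≠ 0 ∧ ξ ^ 5 + c ^ 5 + 1 = 0 := by
  obtain ⟨ξ, hξ⟩ := IsAlgClosed.exists_pow_nat_eq (-(c ^ 5 + 1)) (n := 5) (by norm_num)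
  refine ⟨ξ, ?_, by rw [hξ]; ring⟩
  rintro rfl
  apply hc
  have : c ^ 5 + 1 = 0 := by
    rw [zero_pow (by norm_num)] at hξ
    exact neg_eq_zero.1 hξ.symm
  linear_combination this

theorem zeta_pow_xi {ζ ξ c : ℂ} (hζ : IsPrimitiveRoot ζ 5) (h0 : ξ ^ 5 + c ^ 5 + 1 = 0) (i : ℕ) :
    (ζ ^ i * ξ) ^ 5 + c ^ 5 + 1 = 0 := by
  rw [mul_pow, ← pow_mul, mul_comm i 5, pow_mul, hζ.pow_eq_one, one_pow, one_mul]
  exact h0

theorem pf_Pole (hW : StmtW) (hPt5 : StmtPt5) (hGen : StmtGen) (hDp : StmtDp) : StmtPole := by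
  intro K _ _ ζ x h l l' hl hl' hind hh hall
  by_contra hcon
  push Not at hcon
  obtain ⟨hc, hm⟩ := hcon
  let b : ℕ → Submodule ℂ K := fun q =>
    { carrier := {v | v ∈ AA x q ∧ hh * v ∈ AA x q}
      add_mem' := fun {a c} ha hc => ⟨Submodule.add_mem _ ha.1 hc.1, by
        rw [mul_add]; exact Submodule.add_mem _ ha.2 hc.2⟩
      zero_mem' := ⟨Submodule.zero_mem _, by rw [mul_zero]; exact Submodule.zero_mem _⟩
      smul_mem' := fun c a ha => ⟨Submodule.smul_mem _ _ ha.1, by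
        rw [mul_smul_comm]; exact Submodule.smul_mem _ _ ha.2⟩ }
  have hb : ∀ q v, v ∈ b q ↔ v ∈ AA x q ∧ hh * v ∈ AA x q := fun _ _ => Iff.rfl
  have hl0 : l ≠ 0 := by
    have := hind.ne_zero 0
    simpa using this
  obtain ⟨L, hL⟩ := mem_AA_one.1 hl
  set G₀ : MvPolynomial (Fin 3) ℂ := (∑ i, C (L i) * X i) ^ 5 with hG₀
  have hG₀a : aeval (pr x) G₀ = l ^ 5 := by
    rw [hG₀, hL]
    simp
  have hG₀h : G₀.IsHomogeneous 5 := by
    have h1 : (∑ i, C (L i) * X i : MvPolynomial (Fin 3) ℂ).IsHomogeneous 1 :=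
      IsHomogeneous.sum _ _ _ fun i _ => by
        simpa using (isHomogeneous_C (Fin 3) (L i)).mul (isHomogeneous_X ℂ i)
    simpa using h1.pow 5
  have hn : ¬ FF ∣ G₀ := not_dvd_of_ne h (by rw [hG₀a]; exact pow_ne_zero _ hl0)
  obtain ⟨q₀, hq₀⟩ := hPt5 K ζ x h l l' hl hl' hind
  obtain ⟨⟨m, hm1, hm0, hm2⟩, -⟩ := hW K ζ x h b (badSet G₀) (badSet_finite hGen hG₀h hn)
    (fun q v hv => ((hb q v).1 hv).1)
    (fun q l₁ hl₁ v hv => by
      rw [hb] at hv ⊢
      refine ⟨by rw [add_comm]; exact AA_mul hl₁ hv.1, ?_⟩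
      rw [mul_left_comm, add_comm]
      exact AA_mul hl₁ hv.2)
    (by
      rw [eq_bot_iff]
      intro v hv
      rw [hb] at hv
      by_contra hv0
      exact hm v hv.1 hv0 (by rw [mul_comm]; exact hv.2))
    (by
      obtain ⟨W, hW1, hW2, hW3⟩ := hq₀ (max q₀ 4) (le_max_left _ _)
      refine ⟨max q₀ 4, le_max_right _ _, hW2.trans ?_⟩
      have : W ≤ b (max q₀ 4) := fun v hv => ⟨hW1 hv, hW3 hh hall v hv⟩
      have hfd : FiniteDimensional ℂ (b (max q₀ 4)) := by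
        have := AA_fin (x := x) (max q₀ 4)
        exact Submodule.finiteDimensional_of_le (S₂ := AA x (max q₀ 4)) (fun v hv => hv.1)
      have := Submodule.finrank_mono this
      omega)
    (by
      intro c hcb q hq v hv hu
      rw [hb] at hu ⊢
      refine ⟨hv, ?_⟩
      have hc5 : c ^ 5 ≠ -1 := fun h5 => hcb (Or.inr h5)
      obtain ⟨ξ, hξ, h0⟩ := exists_xi hc5
      apply hDp K ζ x h ξ c hξ h0 5 G₀ hG₀h (fun i hi => hcb (Or.inl ⟨_, zeta_pow_xi h.prim h0 i, hi⟩))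
        (hh * v) q 1
      · rw [pow_one, mul_left_comm]
        exact hu.2
      · rw [hG₀a]
        have h1 := hall 5 le_rfl
        rw [Nat.sub_self, pow_zero, mul_one] at h1
        have h2 := AA_mul h1 hv
        rw [add_comm] at h2
        rwa [← mul_assoc])
    hh (fun q _ v hv => hv.2) hc
  exact hm m hm1 hm0 hm2

theorem pf_Cod (hCusp : StmtCusp) (hGr : StmtGr) (hNorm : StmtNorm) (hDim : StmtDim) :
    StmtCod := by
  intro K _ _ ζ x h a s d hs hs0 hs5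
  have hs' := hs.mod h
  set a' : Jx → ℕ := fun j => a j % 5 with ha'
  obtain ⟨ρ, hρ, hsρ⟩ := hs'
  have hρ0 : ρ ≠ 0 := by
    rintro rfl
    rw [zero_mul] at hsρ
    exact hs0 hsρ
  have hmono0 : mono x a' ^ 5 ≠ 0 := pow_ne_zero _ (mono_ne h a')
  obtain ⟨m₁, m₂, a₁, a₂, ha₁, ha₂, ha₁0, ha₂0, ha12, hdeg⟩ :=
    (hGr K ζ x h).2.2.2 ρ hρ hρ0 (mono x a' ^ 5) (∑ j, a' j) d (mono_pow_five_mem_AA h a') hmono0
      (by rw [← mul_pow, ← hsρ]; exact hs5)
  have ha'4 : ∀ j, a' j ≤ 4 := fun j => by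
    have := Nat.mod_lt (a j) (show 0 < 5 by norm_num)
    simp only [ha']
    omega
  refine ⟨60 + m₁ + d, fun q hq => ?_⟩
  obtain ⟨r, hr⟩ : ∃ r, r + m₁ = q + m₂ := ⟨q + m₂ - m₁, by omega⟩
  obtain ⟨W, hWle, hWdim, hW5⟩ := hCusp K ζ x h a' ha'4 r (by omega)
  have hdegr : 5 * r - ∑ j, a' j = 5 * q - d := by omega
  refine ⟨W.map (LinearMap.mulLeft ℂ ρ), ?_, ?_, ?_⟩
  · rintro _ ⟨b, hb, rfl⟩
    rw [LinearMap.mulLeft_apply]
    apply hNorm K ζ x h
    · exact mul_mem hρ (AA_le_KB (hWle hb))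
    · have h1 : (ρ * b) ^ 5 = s ^ 5 * (b / mono x a') ^ 5 := by
        rw [hsρ]
        have := mono_ne h a'
        field_simp
      rw [h1]
      have h2 := AA_mul hs5 (hW5 b hb)
      rwa [hdegr, show d + (5 * q - d) = 5 * q by omega] at h2
  · have hinj : Function.Injective (LinearMap.mulLeft ℂ ρ) := fun a b hab =>
      mul_left_cancel₀ hρ0 hab
    have h1 : finrank ℂ (W.map (LinearMap.mulLeft ℂ ρ)) = finrank ℂ W :=
      ((Submodule.equivMapOfInjective _ hinj W).finrank_eq).symm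
    rw [h1]
    have h2 := (hDim K ζ x h).2.1 r (by omega)
    omega
  · rintro _ ⟨b, hb, rfl⟩
    rw [LinearMap.mulLeft_apply]
    have h1 : ρ * b / s = b / mono x a' := by
      rw [hsρ]
      have := mono_ne h a'
      field_simp
    rw [h1, ← hdegr]
    exact hW5 b hb

theorem pf_Psi (hW : StmtW) (hCod : StmtCod) (hAdd : StmtAdd) (hNorm : StmtNorm) (hGen : StmtGen)
    (hDp : StmtDp) : StmtPsi := by
  intro K _ _ ζ x h a f₀ f₁ hf₀ hf₁ hKB h05 h15 hprop
  have hf₀0 : f₀ ≠ 0 := by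
    rintro rfl
    exact hKB (zero_mem _)
  let b : ℕ → Submodule ℂ K := fun q =>
    { carrier := {v | (v ∈ AA x q ∧ (v / f₀) ^ 5 ∈ AA x (5 * q - 5)) ∧ (q = 0 → v = 0)}
      add_mem' := fun {u v} hu hv => ⟨⟨Submodule.add_mem _ hu.1.1 hv.1.1, by
        rw [add_div]
        refine hAdd K ζ x h (4 • a) _ _ _ ?_ ?_ hu.1.2 hv.1.2
        · rw [div_eq_mul_inv]; exact (hf₀.inv h).mul_KB (AA_le_KB hu.1.1)
        · rw [div_eq_mul_inv]; exact (hf₀.inv h).mul_KB (AA_le_KB hv.1.1)⟩,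
        fun h0 => by rw [hu.2 h0, hv.2 h0, add_zero]⟩
      zero_mem' := ⟨⟨Submodule.zero_mem _, by
        rw [zero_div, zero_pow (by norm_num)]; exact Submodule.zero_mem _⟩, fun _ => rfl⟩
      smul_mem' := fun c v hv => ⟨⟨Submodule.smul_mem _ _ hv.1.1, by
        have h1 : (c • v / f₀) ^ 5 = algebraMap ℂ K (c ^ 5) * (v / f₀) ^ 5 := by
          rw [Algebra.smul_def, mul_div_assoc, mul_pow, map_pow]
        rw [h1]
        exact const_mul_mem_AA _ hv.1.2⟩, fun h0 => by rw [hv.2 h0, smul_zero]⟩ }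
  have hb0 : b 0 = ⊥ := by
    rw [eq_bot_iff]
    intro v hv
    exact hv.2 rfl
  have hb : ∀ q, q ≠ 0 → ∀ v, v ∈ b q ↔ v ∈ AA x q ∧ (v / f₀) ^ 5 ∈ AA x (5 * q - 5) := by
    intro q hq v
    exact ⟨fun hv => hv.1, fun hv => ⟨hv, fun h0 => absurd h0 hq⟩⟩
  obtain ⟨G₀, hG₀h, hG₀a⟩ := mem_AA.1 h05
  have hn : ¬ FF ∣ G₀ := not_dvd_of_ne h (by rw [hG₀a]; exact pow_ne_zero _ hf₀0)
  obtain ⟨q₀, hq₀⟩ := hCod K ζ x h a f₀ 5 hf₀ hf₀0 h05
  have hble : ∀ q, b q ≤ AA x q := by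
    intro q v hv
    rcases eq_or_ne q 0 with rfl | hq
    · rw [hb0, Submodule.mem_bot] at hv
      rw [hv]; exact Submodule.zero_mem _
    · exact ((hb q hq v).1 hv).1
  have hmul : ∀ f : K, InLine x a f → f ^ 5 ∈ AA x 5 → ∀ q, 1 ≤ q → ∀ v ∈ b q, f / f₀ * v ∈ AA x q := by
    intro f hf hf5 q hq v hv
    obtain ⟨hv1, hv2⟩ := (hb q (by omega) v).1 hv
    apply hNorm K ζ x h
    · exact mul_mem (hf.div h hf₀) (AA_le_KB hv1)
    · have h1 : (f / f₀ * v) ^ 5 = f ^ 5 * (v / f₀) ^ 5 := by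
        field_simp
      rw [h1]
      have h2 := AA_mul hf5 hv2
      rwa [show 5 + (5 * q - 5) = 5 * q by omega] at h2
  have hmain := hW K ζ x h b (badSet G₀) (badSet_finite hGen hG₀h hn) hble
    (by
      intro q l hl v hv
      rcases eq_or_ne q 0 with rfl | hq
      · rw [hb0, Submodule.mem_bot] at hv
        rw [hv, mul_zero]; exact Submodule.zero_mem _
      · rw [hb q hq] at hv
        rw [hb (q + 1) (Nat.succ_ne_zero q)]
        refine ⟨by rw [add_comm]; exact AA_mul hl hv.1, ?_⟩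
        have h1 : (l * v / f₀) ^ 5 = l ^ 5 * (v / f₀) ^ 5 := by
          rw [mul_div_assoc, mul_pow]
        rw [h1]
        have h2 := AA_mul (AA_pow hl 5) hv.2
        rwa [show 5 * 1 + (5 * q - 5) = 5 * (q + 1) - 5 by omega] at h2)
    (by
      rw [eq_bot_iff]
      intro v hv
      rw [hb 1 one_ne_zero] at hv
      obtain ⟨c, hc⟩ := mem_AA_zero.1 (show (v / f₀) ^ 5 ∈ AA x 0 by simpa using hv.2)
      obtain ⟨c', hc'⟩ := const_of_pow_five hc
      rw [Submodule.mem_bot]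
      have h1 : v = algebraMap ℂ K c' * f₀ := by
        rw [← hc']; field_simp
      by_contra hv0
      have hc0 : algebraMap ℂ K c' ≠ 0 := by
        intro h0
        apply hv0
        rw [h1, h0, zero_mul]
      apply hKB
      have h2 : f₀ = (algebraMap ℂ K c')⁻¹ * v := by
        rw [h1]; field_simp
      rw [h2]
      exact mul_mem (inv_mem ((KB x).algebraMap_mem _)) (AA_le_KB hv.1))
    (by
      obtain ⟨W, hW1, hW2, hW3⟩ := hq₀ (max q₀ 4) (le_max_left _ _)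
      refine ⟨max q₀ 4, le_max_right _ _, ?_⟩
      have hq4 : 4 ≤ max q₀ 4 := le_max_right _ _
      have : W ≤ b (max q₀ 4) := fun v hv => by
        rw [hb _ (by omega)]
        exact ⟨hW1 hv, hW3 v hv⟩
      have hfd : FiniteDimensional ℂ (b (max q₀ 4)) := by
        have := AA_fin (x := x) (max q₀ 4)
        exact Submodule.finiteDimensional_of_le (hble _)
      have := Submodule.finrank_mono this
      omega)
    (by
      intro c hcb q hq v hv hu
      rw [hb (q + 1) (Nat.succ_ne_zero q)] at hu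
      rw [hb q (by omega)]
      refine ⟨hv, ?_⟩
      have hc5 : c ^ 5 ≠ -1 := fun h5 => hcb (Or.inr h5)
      obtain ⟨ξ, hξ, h0⟩ := exists_xi hc5
      apply hDp K ζ x h ξ c hξ h0 5 G₀ hG₀h (fun i hi => hcb (Or.inl ⟨_, zeta_pow_xi h.prim h0 i, hi⟩))
        ((v / f₀) ^ 5) (5 * q - 5) 5
      · have h1 := hu.2
        rw [mul_div_assoc, mul_pow] at h1
        rwa [show 5 * (q + 1) - 5 = 5 * q - 5 + 5 by omega] at h1
      · rw [hG₀a]
        have h1 : f₀ ^ 5 * (v / f₀) ^ 5 = v ^ 5 := by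
          field_simp
        rw [h1, show 5 * q - 5 + 5 = 5 * q by omega]
        exact AA_pow hv 5)
    (f₁ / f₀) (hmul f₁ hf₁ h15)
    (by
      intro c hc
      apply hprop c
      rw [← hc]
      field_simp)
  refine ⟨hmain.1, fun f hf hf5 => ?_⟩
  obtain ⟨α, β, hαβ⟩ := hmain.2 (f / f₀) (hmul f hf hf5)
  refine ⟨α, β, ?_⟩
  have : f = (f / f₀) * f₀ := by field_simp
  rw [this, hαβ]
  field_simp

end Pool.Agent.Helper64.Rig
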