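import Pool.Agent.Helper64.Rig.Basics

/-!
# Rigid curves in projective space: StmtLine
-/

namespace Pool.Agent.Helper64.Rig

open MvPolynomial Module

set_option linter.unusedSectionVars false

theorem homogeneousComponent_mul_left {τ : Type} {R : Type} [CommRing R] {L : MvPolynomial τ R} {a : ℕ}
    (hL : L.IsHomogeneous a) (G : MvPolynomial τ R) (n : ℕ) :
    homogeneousComponent (a + n) (L * G) = L * homogeneousComponent n G := by
  conv_lhs => rw [← sum_homogeneousComponent G, Finset.mul_sum, map_sum]
  have h1 : ∀ i, homogeneousComponent (a + n) (L * homogeneousComponent i G)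
      = if i = n then L * homogeneousComponent i G else 0 := by
    intro i
    rw [homogeneousComponent_of_mem (hL.mul (homogeneousComponent_isHomogeneous i G))]
    by_cases hi : i = n
    · rw [if_pos (by omega), if_pos hi]
    · rw [if_neg (by omega), if_neg hi]
  simp only [h1]
  rw [Finset.sum_ite_eq']
  by_cases hn : n ∈ Finset.range (G.totalDegree + 1)
  · rw [if_pos hn]
  · rw [if_neg hn, homogeneousComponent_eq_zero, mul_zero]
    simpa using hn

theorem FF_homog : FF.IsHomogeneous 5 :=
  IsHomogeneous.sum _ _ _ fun i _ => by simpa using (isHomogeneous_X ℂ i).pow 5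

/-- A form vanishing on the line `X₁ = c X₂` is divisible by `X₁ - c X₂`. -/
theorem dvd_of_line {c : ℂ} {n : ℕ} {G : MvPolynomial (Fin 3) ℂ} (hG : G.IsHomogeneous n)
    (h : ∀ t : ℂ, eval ![t, c, 1] G = 0) : (X 1 - C c * X 2) ∣ G := by
  let s : MvPolynomial (Fin 3) ℂ →ₐ[ℂ] MvPolynomial (Fin 3) ℂ := aeval ![X 0, C c * X 2, X 2]
  have h1 : s G = 0 := by
    have h2 : X 2 * s G = 0 := by
      apply MvPolynomial.funext
      intro v
      rw [map_mul, eval_X, map_zero]
      by_cases hv : v 2 = 0
      · rw [hv, zero_mul]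
      · have h3 : eval v (s G) = eval (fun i => v 2 * (![v 0 / v 2, c, 1] : Fin 3 → ℂ) i) G := by
          have : (eval v).comp (s : MvPolynomial (Fin 3) ℂ →+* MvPolynomial (Fin 3) ℂ)
              = eval (fun i => v 2 * (![v 0 / v 2, c, 1] : Fin 3 → ℂ) i) := by
            apply MvPolynomial.ringHom_ext
            · intro r
              simp [s]
            · intro i
              fin_cases i
              · simp [s]; field_simp
              · simp [s]; ring
              · simp [s]
          exact RingHom.congr_fun this G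
        have h4 : eval (fun i => v 2 * (![v 0 / v 2, c, 1] : Fin 3 → ℂ) i) G
            = v 2 ^ n * eval ![v 0 / v 2, c, 1] G := by
          rw [eval_eq', eval_eq', Finset.mul_sum]
          refine Finset.sum_congr rfl fun m hm => ?_
          have hd := degree_of_homog hG (mem_support_iff.1 hm)
          rw [Finsupp.degree_eq_sum] at hd
          simp only [mul_pow, Finset.prod_mul_distrib, Finset.prod_pow_eq_pow_sum]
          rw [hd]
          ring
        rw [h3, h4, h, mul_zero, mul_zero]
    exact (mul_eq_zero.1 h2).resolve_left (X_ne_zero _)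
  rw [← Ideal.mem_span_singleton]
  have h5 : ∀ F : MvPolynomial (Fin 3) ℂ, F - s F ∈ Ideal.span {(X 1 - C c * X 2 : MvPolynomial (Fin 3) ℂ)} := by
    intro F
    rw [← Ideal.Quotient.eq]
    have h6 : (Ideal.Quotient.mkₐ ℂ (Ideal.span {(X 1 - C c * X 2 : MvPolynomial (Fin 3) ℂ)}))
        = (Ideal.Quotient.mkₐ ℂ (Ideal.span {(X 1 - C c * X 2 : MvPolynomial (Fin 3) ℂ)})).comp s := by
      apply MvPolynomial.algHom_ext
      intro i
      simp only [AlgHom.comp_apply, Ideal.Quotient.mkₐ_eq_mk]
      rw [Ideal.Quotient.eq]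
      fin_cases i
      · simp [s]
      · simp only [s, aeval_X]
        exact Ideal.subset_span rfl
      · simp [s]
    exact DFunLike.congr_fun h6 F
  have := h5 G
  rwa [h1, sub_zero] at this

theorem pf_Line : StmtLine := by
  intro ζ ξ c hζ hξ h0 q G hG hev
  let φ : MvPolynomial (Fin 3) ℂ →ₐ[ℂ] Polynomial ℂ := aeval ![Polynomial.X, Polynomial.C c, 1]
  have hφe : ∀ (t : ℂ) (F : MvPolynomial (Fin 3) ℂ), (φ F).eval t = eval ![t, c, 1] F := by
    intro t F
    have : (Polynomial.evalRingHom t).comp (φ : MvPolynomial (Fin 3) ℂ →+* Polynomial ℂ)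
        = eval ![t, c, 1] := by
      apply MvPolynomial.ringHom_ext
      · intro r
        simp [φ]
      · intro i
        fin_cases i <;> simp [φ]
    exact RingHom.congr_fun this F
  have hφF : φ FF = ∏ i : Fin 5, (Polynomial.X - Polynomial.C (ζ ^ (i : ℕ) * ξ)) := by
    have h1 := prod_add_zeta (R := Polynomial ℂ) hζ Polynomial.X (-Polynomial.C ξ)
    have h2 : φ FF = Polynomial.X ^ 5 + (-Polynomial.C ξ) ^ 5 := by
      simp only [FF, Fin.sum_univ_three, map_add, map_pow, φ, aeval_X]
      simp only [Matrix.cons_val_zero, Matrix.cons_val_one, Matrix.cons_val, one_pow]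
      have h3 : (Polynomial.C ξ : Polynomial ℂ) ^ 5 + Polynomial.C c ^ 5 + 1 = 0 := by
        rw [← Polynomial.C_pow, ← Polynomial.C_pow, ← Polynomial.C_1, ← Polynomial.C_add,
          ← Polynomial.C_add, h0, Polynomial.C_0]
      linear_combination h3
    rw [h2, ← h1]
    refine Finset.prod_congr rfl fun i _ => ?_
    rw [Polynomial.C_mul, Polynomial.algebraMap_eq]
    ring
  have hdvd : φ FF ∣ φ G := by
    rw [hφF]
    apply Finset.prod_dvd_of_coprime
    · intro i _ j _ hij
      apply Polynomial.pairwise_coprime_X_sub_C (s := fun i : Fin 5 => ζ ^ (i : ℕ) * ξ) _ hij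
      intro a b hab
      have := mul_right_cancel₀ hξ hab
      exact Fin.ext (hζ.pow_inj a.2 b.2 this)
    · intro i _
      rw [Polynomial.dvd_iff_isRoot, Polynomial.IsRoot, hφe]
      exact hev i
  obtain ⟨hh, hhh⟩ := hdvd
  -- the degree of `φ G`
  have hdeg : (φ G).natDegree ≤ q + 1 := by
    have h1 : φ G = ∑ m ∈ G.support, Polynomial.C (coeff m G) * ∏ i, (![Polynomial.X, Polynomial.C c, 1] : Fin 3 → Polynomial ℂ) i ^ m i := by
      change aeval _ G = _
      rw [aeval_def, eval₂_eq']
      rfl
    rw [h1]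
    apply Polynomial.natDegree_sum_le_of_forall_le
    intro m hm
    have hd := degree_of_homog hG (mem_support_iff.1 hm)
    rw [Finsupp.degree_eq_sum, Fin.sum_univ_three] at hd
    rw [Fin.prod_univ_three]
    simp only [Matrix.cons_val_zero, Matrix.cons_val_one, Matrix.cons_val, one_pow, mul_one]
    rw [← Polynomial.C_pow, mul_comm (Polynomial.X ^ _), ← mul_assoc, ← Polynomial.C_mul]
    refine (Polynomial.natDegree_C_mul_X_pow_le _ _).trans ?_
    omega
  -- the lift of `hh`
  let H : MvPolynomial (Fin 3) ℂ := ∑ e ∈ Finset.range (q + 1 - 4), C (hh.coeff e) * (X 0 ^ e * X 2 ^ (q - 4 - e))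
  have hφm : (φ FF).natDegree = 5 := by
    rw [hφF, Polynomial.natDegree_prod _ _ (fun i _ => Polynomial.X_sub_C_ne_zero _)]
    simp only [Polynomial.natDegree_X_sub_C, Finset.sum_const, Finset.card_univ, Fintype.card_fin,
      smul_eq_mul, mul_one]
  have hφmne : φ FF ≠ 0 := by
    intro h
    rw [h] at hφm
    simp at hφm
  have hhdeg : hh ≠ 0 → hh.natDegree + 5 ≤ q + 1 := by
    intro hne
    have := Polynomial.natDegree_mul hφmne hne
    rw [← hhh, hφm] at this
    omega
  have hφH : φ H = hh := by
    simp only [H, map_sum, map_mul, map_pow, φ, aeval_X, algHom_C]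
    simp only [Matrix.cons_val_zero, Matrix.cons_val, one_pow, mul_one]
    by_cases hne : hh = 0
    · rw [hne]; simp
    · conv_rhs => rw [Polynomial.as_sum_range_C_mul_X_pow' hh (n := q + 1 - 4) (by have := hhdeg hne; omega)]
      rfl
  have hHhom : (FF * H).IsHomogeneous (q + 1) := by
    by_cases hq : 4 ≤ q
    · have h1 : H.IsHomogeneous (q - 4) := by
        refine IsHomogeneous.sum _ _ _ fun e he => ?_
        rw [Finset.mem_range] at he
        have h2 := ((isHomogeneous_X ℂ (0 : Fin 3)).pow e).mul ((isHomogeneous_X ℂ (2 : Fin 3)).pow (q - 4 - e))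
        have h3 := h2.C_mul (hh.coeff e)
        rwa [one_mul, one_mul, show e + (q - 4 - e) = q - 4 by omega] at h3
      have h2 := FF_homog.mul h1
      rwa [show 5 + (q - 4) = q + 1 by omega] at h2
    · have h1 : H = 0 := by
        simp only [H]
        rw [show q + 1 - 4 = 0 by omega]
        simp
      rw [h1, mul_zero]
      exact isHomogeneous_zero _ _ _
  have hdiff : (G - FF * H).IsHomogeneous (q + 1) := hG.sub hHhom
  obtain ⟨G'', hG''⟩ := dvd_of_line (c := c) hdiff (fun t => by
    rw [← hφe, map_sub, map_mul, hφH, ← hhh, sub_self, Polynomial.eval_zero])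
  refine ⟨homogeneousComponent q G'', homogeneousComponent_isHomogeneous _ _, ⟨H, ?_⟩⟩
  have hL : (X 1 - C c * X 2 : MvPolynomial (Fin 3) ℂ).IsHomogeneous 1 :=
    (isHomogeneous_X ℂ _).sub (by simpa using (isHomogeneous_X ℂ (2 : Fin 3)).C_mul c)
  rw [← homogeneousComponent_mul_left hL, ← hG'', add_comm 1 q, homogeneousComponent_of_mem hdiff,
    if_pos rfl]
  ring

end Pool.Agent.Helper64.Rig
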