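import Pool.Agent.Helper64.Rig.Goals

/-!
# Rigid curves in projective space: StmtPair, StmtGrow
-/

namespace Pool.Agent.Helper64.Rig

open MvPolynomial Module

set_option linter.unusedSectionVars false

/-- The diagonal map. -/
noncomputable def dg (ζ : ℂ) : (Fin 5 → ℂ) →ₗ[ℂ] (Fin 5 → ℂ) where
  toFun v := fun i => ζ ^ (i : ℕ) * v i
  map_add' u v := by funext i; simp [mul_add]
  map_smul' c v := by funext i; simp; ring

theorem dg_apply (ζ : ℂ) (v : Fin 5 → ℂ) (i : Fin 5) : dg ζ v i = ζ ^ (i : ℕ) * v i := rfl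

theorem dg_inj {ζ : ℂ} (hζ : IsPrimitiveRoot ζ 5) : Function.Injective (dg ζ) := by
  intro u v h
  funext i
  have := congrFun h i
  rw [dg_apply, dg_apply] at this
  exact mul_left_cancel₀ (pow_ne_zero _ (hζ.ne_zero (by norm_num))) this

theorem pf_Pair : StmtPair := by
  intro ζ hζ V W h
  let e := dotProductEquiv ℂ (Fin 5)
  let W' := W.map (dg ζ)
  have h0 : finrank ℂ W' = finrank ℂ W :=
    ((Submodule.equivMapOfInjective _ (dg_inj hζ) W).finrank_eq).symm
  let Φ : Subspace ℂ (Dual ℂ (Fin 5 → ℂ)) := W'.map (e : (Fin 5 → ℂ) →ₗ[ℂ] Dual ℂ (Fin 5 → ℂ))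
  have h1 : finrank ℂ Φ = finrank ℂ W' := LinearEquiv.finrank_map_eq e W'
  have h2 := Subspace.finrank_add_finrank_dualCoannihilator_eq Φ
  have h3 : V ≤ Submodule.dualCoannihilator Φ := by
    intro v hv
    rw [Submodule.mem_dualCoannihilator]
    rintro _ ⟨_, ⟨w, hw, rfl⟩, rfl⟩
    change e (dg ζ w) v = 0
    simp only [e, dotProductEquiv_apply_apply, dotProduct, dg_apply]
    rw [← h v hv w hw]
    exact Finset.sum_congr rfl fun i _ => by ring
  have h4 := Submodule.finrank_mono h3
  have h5 : finrank ℂ (Fin 5 → ℂ) = 5 := by simp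
  omega

theorem pf_Grow : StmtGrow := by
  intro ζ hζ V₀ V₁ V₂ h01 h12 hD0 hD1 hone hsum
  have hζinj : Function.Injective fun i : Fin 5 => ζ ^ (i : ℕ) := by
    intro i j hij
    exact Fin.ext (hζ.pow_inj i.2 j.2 hij)
  -- `V₁` is not stable
  have hstable : ¬ V₂ ≤ V₁ := by
    intro hle
    have hD : ∀ v ∈ V₁, dg ζ v ∈ V₁ := fun v hv => hle (hD1 v hv)
    have hpow : ∀ k : ℕ, (fun i : Fin 5 => (ζ ^ (i : ℕ)) ^ k) ∈ V₁ := by
      intro k
      induction k with
      | zero => simpa using hone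
      | succ k ih =>
        have := hD _ ih
        have h2 : dg ζ (fun i : Fin 5 => (ζ ^ (i : ℕ)) ^ k) = fun i : Fin 5 => (ζ ^ (i : ℕ)) ^ (k + 1) := by
          funext i
          rw [dg_apply, pow_succ']
        rwa [h2] at this
    have htop : V₁ = ⊤ := by
      have hdet : (Matrix.vandermonde fun i : Fin 5 => ζ ^ (i : ℕ)).transpose.det ≠ 0 := by
        rw [Matrix.det_transpose, Matrix.det_vandermonde_ne_zero_iff]
        exact hζinj
      have hli := Matrix.linearIndependent_rows_of_det_ne_zero hdet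
      have hspan := hli.span_eq_top_of_card_eq_finrank (by simp)
      rw [eq_top_iff, ← hspan, Submodule.span_le]
      rintro _ ⟨k, rfl⟩
      exact hpow k
    have h5 : finrank ℂ V₁ = 5 := by
      rw [htop, finrank_top]; simp
    have h6 : finrank ℂ V₁ ≤ finrank ℂ V₂ := Submodule.finrank_mono h12
    omega
  have hlt : finrank ℂ V₁ < finrank ℂ V₂ :=
    Submodule.finrank_lt_finrank_of_lt (lt_of_le_not_ge h12 hstable)
  have h1pos : 1 ≤ finrank ℂ V₁ := by
    rw [Nat.one_le_iff_ne_zero]
    intro h0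
    rw [Submodule.finrank_eq_zero] at h0
    rw [h0, Submodule.mem_bot] at hone
    have := congrFun hone 0
    simp at this
  have hV0 : V₀ = ⊥ := by
    by_contra hne
    have h0pos : 1 ≤ finrank ℂ V₀ := by
      rw [Nat.one_le_iff_ne_zero]
      intro h0
      exact hne (Submodule.finrank_eq_zero.1 h0)
    have h2 : 2 ≤ finrank ℂ V₁ := by
      by_contra hcon
      have h1 : finrank ℂ V₁ = 1 := by omega
      have h01' : V₀ = V₁ := Submodule.eq_of_le_of_finrank_le h01 (by omega)
      have hDone : dg ζ (fun _ => 1) ∈ V₁ := hD0 _ (by rw [h01']; exact hone)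
      rw [finrank_eq_one_iff'] at h1
      obtain ⟨v, hv, hall⟩ := h1
      obtain ⟨c, hc⟩ := hall ⟨_, hone⟩
      obtain ⟨d, hd⟩ := hall ⟨_, hDone⟩
      have e1 := congrArg Subtype.val hc
      have e2 := congrArg Subtype.val hd
      have e10 := congrFun e1 0
      have e11 := congrFun e1 1
      have e20 := congrFun e2 0
      have e21 := congrFun e2 1
      simp only [Submodule.coe_smul, Pi.smul_apply, smul_eq_mul, dg_apply, Fin.val_zero, pow_zero,
        mul_one, Fin.val_one, pow_one] at e10 e11 e20 e21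
      have hc0 : c ≠ 0 := by
        rintro rfl
        simp at e10
      have hvv : (v : Fin 5 → ℂ) 0 = (v : Fin 5 → ℂ) 1 := by
        apply mul_left_cancel₀ hc0
        rw [e10, e11]
      have : ζ = 1 := by
        rw [← e21, ← hvv, e20]
      exact hζ.ne_one (by norm_num) this
    omega
  refine ⟨hV0, by omega, fun h => by omega⟩

end Pool.Agent.Helper64.Rig
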