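import Pool.Agent.Helper64.Rig.Basics

/-!
# Rigid curves in projective space: the small statements
-/

namespace Pool.Agent.Helper64.Rig

open MvPolynomial Module

set_option linter.unusedSectionVars false

section
variable {K : Type} [Field K] [Algebra ℂ K] {ζ : ℂ} {x : Jx → K}

theorem isIntegral_of_mem_AA {g : K} {q : ℕ} (hg : g ∈ AA x q) : IsIntegral (AB x) g :=
  isIntegral_algebraMap (x := (⟨g, AA_le_AB hg⟩ : AB x))

/-- A finite dimensional subspace has a basis... the pieces are finite dimensional. -/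
theorem AA_fin (q : ℕ) : FiniteDimensional ℂ (AA x q) := by
  have : FiniteDimensional ℂ (homogeneousSubmodule (Fin 3) ℂ q) :=
    Module.Finite.iff_fg.2 (homogeneousSubmodule_fg _ _ _)
  unfold AA
  infer_instance

end

theorem pf_Norm (hNormal : StmtNormal) (hGr : StmtGr) : StmtNorm := by
  intro K _ _ ζ x h g hg q hq
  refine (hGr K ζ x h).2.1 g ?_ q hq
  exact hNormal K ζ x h g hg (IsIntegral.of_pow (by norm_num) (isIntegral_of_mem_AA hq))

theorem pf_Add (hNorm : StmtNorm) : StmtAdd := by
  intro K _ _ ζ x h a f f' d hf hf' h5 h5'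
  have key : ∀ i ≤ 5, f ^ i * f' ^ (5 - i) ∈ AA x d := by
    intro i hi
    apply hNorm K ζ x h
    · obtain ⟨ρ, hρ, rfl⟩ := hf
      obtain ⟨τ, hτ, rfl⟩ := hf'
      have : (ρ * mono x a) ^ i * (τ * mono x a) ^ (5 - i)
          = ρ ^ i * τ ^ (5 - i) * mono x a ^ 5 := by
        rw [mul_pow, mul_pow, show (mono x a) ^ 5 = mono x a ^ i * mono x a ^ (5 - i) by
          rw [← pow_add]; congr 1; omega]
        ring
      rw [this]
      exact mul_mem (mul_mem (pow_mem hρ _) (pow_mem hτ _)) (mono_pow_five_mem_KB h a)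
    · have : (f ^ i * f' ^ (5 - i)) ^ 5 = (f ^ 5) ^ i * (f' ^ 5) ^ (5 - i) := by
        rw [mul_pow, ← pow_mul, ← pow_mul, ← pow_mul, ← pow_mul, mul_comm i, mul_comm (5 - i)]
      rw [this]
      have h1 := AA_mul (AA_pow h5 i) (AA_pow h5' (5 - i))
      rwa [← add_mul, show i + (5 - i) = 5 by omega] at h1
  have : (f + f') ^ 5 = ∑ i ∈ Finset.range 6, algebraMap ℂ K ((5 : ℕ).choose i : ℂ) * (f ^ i * f' ^ (5 - i)) := by
    rw [add_pow]
    refine Finset.sum_congr rfl fun i _ => ?_
    rw [map_natCast]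
    ring
  rw [this]
  refine Submodule.sum_mem _ fun i hi => const_mul_mem_AA _ (key i ?_)
  rw [Finset.mem_range] at hi
  omega

theorem pf_VB (hNormal : StmtNormal) (hGr : StmtGr) : StmtVB := by
  intro K _ _ ζ x h q v hv hKB
  refine (hGr K ζ x h).2.2.1 v ?_ q hv
  apply hNormal K ζ x h v hKB
  obtain ⟨G, -, rfl⟩ := mem_VV.1 hv
  have hx : ∀ j, IsIntegral (AB x) (x j) := fun j => by
    refine IsIntegral.of_pow (n := 5) (by norm_num) ?_
    rw [pow_five h]
    exact (isIntegral_of_mem_AA (el_mem_AA j)).neg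
  induction G using MvPolynomial.induction_on with
  | C a =>
    rw [algHom_C]
    exact isIntegral_algebraMap (x := algebraMap ℂ (AB x) a)
  | add p q hp hq =>
    rw [map_add]
    have h1 : ∀ G : MvPolynomial Jx ℂ, IsIntegral (AB x) (aeval x G) := by
      intro G
      induction G using MvPolynomial.induction_on with
      | C a => rw [algHom_C]; exact isIntegral_algebraMap (x := algebraMap ℂ (AB x) a)
      | add p q hp hq => rw [map_add]; exact hp.add hq
      | mul_X p i hp => rw [map_mul, aeval_X]; exact hp.mul (hx i)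
    exact (h1 p).add (h1 q)
  | mul_X p i hp =>
    have h1 : ∀ G : MvPolynomial Jx ℂ, IsIntegral (AB x) (aeval x G) := by
      intro G
      induction G using MvPolynomial.induction_on with
      | C a => rw [algHom_C]; exact isIntegral_algebraMap (x := algebraMap ℂ (AB x) a)
      | add p q hp hq => rw [map_add]; exact hp.add hq
      | mul_X p i hp => rw [map_mul, aeval_X]; exact hp.mul (hx i)
    exact h1 _

theorem pf_Reg (hVB : StmtVB) (hCop : StmtCop) : StmtReg := by
  intro K _ _ ζ x h a f hf he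
  obtain ⟨e, he⟩ := he
  have key : ∀ j, el ζ x j ^ e * f ^ 5 ∈ AA x (5 + e) := by
    intro j
    have h1 : x j ^ e ∈ VV x e := by
      have := VV_pow (x_mem_VV (x := x) j) e
      rwa [mul_one] at this
    have h2 := VV_pow (he _ h1) 5
    have h3 : (x j ^ e * f) ^ 5 = (-1) ^ e * (el ζ x j ^ e * f ^ 5) := by
      rw [mul_pow, ← pow_mul, mul_comm e 5, pow_mul, pow_five h]
      rw [neg_pow]
      ring
    have h4 : (x j ^ e * f) ^ 5 ∈ KB x := by
      rw [h3]
      exact mul_mem (pow_mem (neg_mem (one_mem _)) _)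
        (mul_mem (pow_mem (el_mem_KB j) _) (hf.pow_five h))
    have h5 := hVB K ζ x h (e + 5) _ h2 h4
    rw [h3] at h5
    have h6 := const_mul_mem_AA ((-1) ^ e) h5
    rw [map_pow, map_neg, map_one, ← mul_assoc, ← mul_pow] at h6
    norm_num at h6
    rwa [add_comm]
  exact hCop K ζ x h (0, 0) (0, 1) (by decide) (f ^ 5) 5 e e (key _) (key _)

end Pool.Agent.Helper64.Rig
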