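import Pool.Agent.Helper64.Rig.Basics

/-!
# Rigid curves in projective space: StmtT
-/

namespace Pool.Agent.Helper64.Rig

open MvPolynomial Module

set_option linter.unusedSectionVars false

section
variable {K : Type} [Field K] [Algebra ℂ K] {ζ : ℂ} {x : Jx → K}

theorem der_add (A B : Matrix Jx Jx ℂ) (G : MvPolynomial Jx ℂ) : der (A + B) G = der A G + der B G := by
  simp only [der, Matrix.add_apply, map_add, add_mul, Finset.sum_add_distrib]

theorem der_zero (G : MvPolynomial Jx ℂ) : der (0 : Matrix Jx Jx ℂ) G = 0 := by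
  simp [der]

theorem der_sum {ι : Type} (s : Finset ι) (A : ι → Matrix Jx Jx ℂ) (G : MvPolynomial Jx ℂ) :
    der (∑ i ∈ s, A i) G = ∑ i ∈ s, der (A i) G := by
  classical
  induction s using Finset.induction_on with
  | empty => simp [der_zero]
  | insert a s ha ih => rw [Finset.sum_insert ha, Finset.sum_insert ha, der_add, ih]

/-- The case of one line. -/
theorem T_line (hReg : StmtReg) (hNorm : StmtNorm) (hLinA : StmtLinA) (hLinB : StmtLinB)
    (hLinC : StmtLinC) (hPsi : StmtPsi) (hQuot : StmtQuot) (h : Cov ζ x) (a : Jx → ℕ)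
    (g : Jx → K) (hg : ∀ j, InLine x a (g j))
    (hR : ∀ j, ∃ e : ℕ, ∀ v ∈ VV x e, v * g j ∈ VV x (e + 5))
    (hS : ∀ i : Fin 3, ∑ k, hat x (i, k) * g (i, k) = ∑ k, hat x (0, k) * g (0, k)) :
    ∃ A : Matrix Jx Jx ℂ, ∀ j, g j = aeval x (der A (EE ζ j)) := by
  have h5 : ∀ j, g j ^ 5 ∈ AA x 5 := fun j => hReg K ζ x h a (g j) (hg j) (hR j)
  by_cases hall : ∀ j, g j = 0
  · exact ⟨0, fun j => by rw [hall j, der_zero, map_zero]⟩
  push Not at hall
  obtain ⟨j₀, hj₀⟩ := hall
  by_cases hKB : g j₀ ∈ KB x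
  · -- all in `KB`
    have hall' : ∀ j, g j ∈ AA x 1 := by
      intro j
      apply hNorm K ζ x h _ _ 1 (by simpa using h5 j)
      have := InLine.div h (hg j) (hg j₀)
      have h2 := mul_mem this hKB
      rwa [div_mul_cancel₀ _ hj₀] at h2
    obtain ⟨s, hs⟩ := hLinB K ζ x h g hall' hS
    exact ⟨Matrix.diagonal s, hs⟩
  by_cases hprop : ∀ j, ∃ c : ℂ, g j = algebraMap ℂ K c * g j₀
  · exfalso
    choose c hc using hprop
    have h1 : c = 0 := by
      apply hLinA K ζ x h c
      intro i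
      have := hS i
      have e1 : ∀ i : Fin 3, ∑ k, hat x (i, k) * g (i, k)
          = (∑ k, hat x (i, k) * algebraMap ℂ K (c (i, k))) * g j₀ := by
        intro i
        rw [Finset.sum_mul]
        exact Finset.sum_congr rfl fun k _ => by rw [hc (i, k)]; ring
      rw [e1, e1] at this
      exact mul_right_cancel₀ hj₀ this
    have h2 := hc j₀
    rw [h1] at h2
    simp only [Pi.zero_apply, map_zero, zero_mul] at h2
    exact hj₀ h2
  push Not at hprop
  obtain ⟨j₁, hj₁⟩ := hprop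
  obtain ⟨⟨l', hl', hl'0, hl⟩, hspan⟩ := hPsi K ζ x h a (g j₀) (g j₁) (hg j₀) (hg j₁) hKB (h5 j₀)
    (h5 j₁) hj₁
  set l := l' * (g j₁ / g j₀) with hldef
  set w := g j₀ / l' with hwdef
  have hw0 : l' * w = g j₀ := by rw [hwdef]; field_simp
  have hw1 : l * w = g j₁ := by rw [hldef, hwdef]; field_simp
  have hwne : w ≠ 0 := fun h0 => hj₀ (by rw [← hw0, h0, mul_zero])
  have hwline : InLine x a w := by
    have := InLine.mul_KB (hg j₀) (inv_mem (AA_le_KB hl'))
    rwa [hwdef, div_eq_inv_mul]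
  have hind : LinearIndependent ℂ ![l, l'] := by
    rw [LinearIndependent.pair_iff]
    intro s t hst
    have h1 : algebraMap ℂ K s * g j₁ + algebraMap ℂ K t * g j₀ = 0 := by
      rw [← hw0, ← hw1]
      rw [Algebra.smul_def, Algebra.smul_def] at hst
      linear_combination w * hst
    by_cases hs : s = 0
    · refine ⟨hs, ?_⟩
      rw [hs, map_zero, zero_mul, zero_add] at h1
      rcases mul_eq_zero.1 h1 with h2 | h2
      · exact (map_eq_zero _).1 h2
      · exact absurd h2 hj₀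
    · exfalso
      apply hj₁ (-(t / s))
      have hs' : algebraMap ℂ K s ≠ 0 := (map_ne_zero _).2 hs
      rw [map_neg, map_div₀]
      field_simp
      linear_combination h1
  rcases hQuot K ζ x h a w l l' hwline hl hl' hind (by rw [hw1]; exact h5 j₁)
    (by rw [hw0]; exact h5 j₀) with ⟨c, hc⟩ | ⟨j2, j3, c, hne, hc⟩
  · exfalso
    apply hKB
    rw [← hw0, hc]
    exact mul_mem (AA_le_KB hl') ((KB x).algebraMap_mem _)
  · have hspan' : ∀ j, ∃ m ∈ AA x 1, g j = x j3 / x j2 * m := by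
      intro j
      obtain ⟨α, β, hαβ⟩ := hspan (g j) (hg j) (h5 j)
      refine ⟨algebraMap ℂ K c * (algebraMap ℂ K α * l' + algebraMap ℂ K β * l),
        const_mul_mem_AA _ (Submodule.add_mem _ (const_mul_mem_AA _ hl') (const_mul_mem_AA _ hl)), ?_⟩
      rw [hαβ, ← hw0, ← hw1, hc]
      ring
    choose m hm hgm using hspan'
    have hx : x j3 / x j2 ≠ 0 := div_ne_zero (x_ne h _) (x_ne h _)
    have hS' : ∀ i : Fin 3, ∑ k, hat x (i, k) * m (i, k) = ∑ k, hat x (0, k) * m (0, k) := by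
      intro i
      have := hS i
      have e1 : ∀ i : Fin 3, ∑ k, hat x (i, k) * g (i, k)
          = (x j3 / x j2) * (∑ k, hat x (i, k) * m (i, k)) := by
        intro i
        rw [Finset.mul_sum]
        exact Finset.sum_congr rfl fun k _ => by rw [hgm (i, k)]; ring
      rw [e1, e1] at this
      exact mul_left_cancel₀ hx this
    obtain ⟨s, hs⟩ := hLinB K ζ x h m hm hS'
    obtain ⟨c', hc'⟩ := hLinC K ζ x h j2 j3 hne s (fun j => by
      rw [← hs j, ← hgm j]; exact h5 j)
    exact ⟨Matrix.single j2 j3 c', fun j => by rw [hgm j, hs j, hc' j]⟩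

end

theorem pf_T (hGal : StmtGal) (hReg : StmtReg) (hNorm : StmtNorm) (hLinA : StmtLinA)
    (hLinB : StmtLinB) (hLinC : StmtLinC) (hPsi : StmtPsi) (hQuot : StmtQuot) : StmtT := by
  intro K _ _ ζ x h f hR hS
  obtain ⟨Ψ, _, π, hsum, hline, hlin, hshift, hmono⟩ := hGal K ζ x h
  have hVV : ∀ ψ d, ∀ v ∈ VV x d, π ψ v ∈ VV x d := by
    intro ψ d v hv
    rw [VV_eq_span] at hv
    refine Submodule.span_induction (p := fun v _ => π ψ v ∈ VV x d) ?_ ?_ ?_ ?_ hv
    · rintro _ ⟨b, hb, rfl⟩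
      obtain ⟨c, hc⟩ := hmono ψ b
      rw [hc]
      apply const_mul_mem_VV
      rw [← hb]
      exact mono_mem_VV b
    · rw [map_zero]; exact Submodule.zero_mem _
    · intro a b _ _ ha hb
      rw [map_add]; exact Submodule.add_mem _ ha hb
    · intro c a _ ha
      rw [map_smul]; exact Submodule.smul_mem _ _ ha
  have key : ∀ ψ, ∃ A : Matrix Jx Jx ℂ, ∀ j, π ψ (f j) = aeval x (der A (EE ζ j)) := by
    intro ψ
    obtain ⟨a, ha⟩ := hline ψ
    refine T_line hReg hNorm hLinA hLinB hLinC hPsi hQuot h a (fun j => π ψ (f j))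
      (fun j => ha _) (fun j => ?_) (fun i => ?_)
    · obtain ⟨e, he⟩ := hR j
      refine ⟨e, fun v hv => ?_⟩
      rw [VV_eq_span] at hv
      refine Submodule.span_induction (p := fun v _ => v * π ψ (f j) ∈ VV x (e + 5)) ?_ ?_ ?_ ?_ hv
      · rintro _ ⟨b, hb, rfl⟩
        obtain ⟨ψ', hψ'⟩ := hshift ψ b
        rw [hψ']
        apply hVV
        apply he
        rw [← hb]
        exact mono_mem_VV b
      · rw [zero_mul]; exact Submodule.zero_mem _
      · intro a b _ _ ha hb
        rw [add_mul]; exact Submodule.add_mem _ ha hb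
      · intro c a _ ha
        rw [smul_mul_assoc]; exact Submodule.smul_mem _ _ ha
    · have e1 : ∀ i : Fin 3, ∑ k, hat x (i, k) * π ψ (f (i, k))
          = π ψ (∑ k, hat x (i, k) * f (i, k)) := by
        intro i
        rw [map_sum]
        exact Finset.sum_congr rfl fun k _ => (hlin ψ _ (AA_le_KB (hat_mem_AA h _)) _).symm
      rw [e1, e1, hS i]
  choose A hA using key
  refine ⟨∑ ψ, A ψ, fun j => ?_⟩
  rw [der_sum, map_sum, ← hsum (f j)]
  exact Finset.sum_congr rfl fun ψ _ => hA ψ j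

end Pool.Agent.Helper64.Rig
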