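import Pool.Agent.Helper64.Rig.RigidOf
import Pool.Agent.Helper64.Rig.Curve
import Pool.Agent.Helper64.Rig.TT
import Pool.Agent.Helper64.Rig.Small
import Pool.Agent.Helper64.Rig.Deg5
import Pool.Agent.Helper64.Rig.Artin
import Pool.Agent.Helper64.Rig.PairGrow
import Pool.Agent.Helper64.Rig.Line
import Pool.Agent.Helper27.Rig.Quot
import Pool.Agent.Helper3.Rig.Cusp
import Pool.Agent.Helper37.Rig.Krull
import Pool.Agent.Helper37.Rig.Loc
import Pool.Agent.Helper51.Rig.Ker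
import Pool.Agent.Helper51.Rig.Lift
import Pool.Agent.Helper51.Rig.Pt5
import Pool.Agent.Helper68.Rig.Gal
import Pool.Agent.Helper73.Rig.Ex
import Pool.Agent.Helper73.Rig.Gr
import Pool.Agent.Helper73.Rig.Rank
import Pool.Agent.Helper75.Rig.Normal
import Pool.Agent.Helper77.Rig.TrivAlg
import Pool.Agent.Helper84.Rig.W
import Pool.Agent.Helper85.Rig.Nondeg
import Pool.Agent.Helper87.Rig.Inf
import Pool.Agent.Helper87.Rig.Spread
import Pool.Agent.Helper90.Rig.Flex
import Pool.Agent.Helper92.Rig.NotRNC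
import Pool.Agent.Helper95.Rig.TanLo
import Pool.Agent.Helper96.Rig.Gen

/-!
# Rigid curves in projective space: assembly
-/

namespace Pool.Agent.Helper64.Rig

open MvPolynomial

theorem final0 (hDim : StmtDim) (hCop : StmtCop) (hLinA : StmtLinA) (hLinB : StmtLinB)
    (hLinC : StmtLinC) (hUp : StmtTanUp) (ζ : ℂ) (hζ : IsPrimitiveRoot ζ 5) :
    ∃ I : Ideal (MvPolynomial (Fin 3 × Fin 5) ℂ),
      (∀ (i : Fin 3) (k : Fin 5), X (i, k) ^ 5 + (∏ l : Fin 5, X (i + 1, l)) +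
        C (ζ ^ (k : ℕ)) * ∏ l : Fin 5, X (i + 2, l) ∈ I) ∧
      IsSmoothCurve I ∧ Nondegenerate I ∧ Rigid I ∧ ¬ IsRationalNormal I := by
  have hKer : StmtKer := Helper51.Rig.pf_Ker
  have hGr : StmtGr := Helper73.Rig.pf_Gr0
  have hNormal : StmtNormal := Helper75.Rig.pf_Normal
  have hNorm : StmtNorm := pf_Norm hNormal hGr
  have hLine : StmtLine := pf_Line
  have hGen : StmtGen := Helper96.Rig.pf_Gen
  have hDp : StmtDp := pf_Dp hKer hLine
  have hW : StmtW := pf_W hKer hLine hGen pf_Pair pf_Grow hDim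
  have hAdd : StmtAdd := pf_Add hNorm
  have hCusp : StmtCusp := Helper3.Rig.pf_Cusp hCop hDim
  have hCod : StmtCod := pf_Cod hCusp hGr hNorm hDim
  have hPsi : StmtPsi := pf_Psi hW hCod hAdd hNorm hGen hDp
  have hPt5 : StmtPt5 := Helper51.Rig.pf_Pt5 hKer hDim
  have hPole : StmtPole := pf_Pole hW hPt5 hGen hDp
  have hFlex : StmtFlex := Helper90.Rig.pf_Flex
  have hQuot : StmtQuot := Helper27.Rig.pf_Quot hPole hFlex hCod hNorm hKer hDim
  have hGal : StmtGal := Helper68.Rig.pf_Gal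
  have hVB : StmtVB := pf_VB hNormal hGr
  have hReg : StmtReg := pf_Reg hVB hCop
  have hT : StmtT := pf_T hGal hReg hNorm hLinA hLinB hLinC hPsi hQuot
  have hLoc : StmtLoc := Helper37.Rig.pf_Loc
  have hInf : StmtInf := Helper87.Rig.pf_Inf hT hLoc
  have hSplit : StmtSplit := pf_Split
  have hRank : StmtRank := Helper73.Rig.pf_Rank hSplit
  have hArtin : StmtArtin := pf_Artin Helper51.Rig.pf_Lift
  have hRig : StmtRigidOf := pf_RigidOf hSplit hRank hArtin Helper87.Rig.pf_Spread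
    Helper77.Rig.pf_TrivAlg
  exact final_of Helper73.Rig.pf_Ex Helper37.Rig.pf_Krull hUp Helper95.Rig.pf_TanLo
    (Helper85.Rig.pf_Nondeg hGal hNorm hKer) Helper92.Rig.pf_NotRNC hInf hRig ζ hζ

end Pool.Agent.Helper64.Rig
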