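import Pool.Agent.Helper64.Rig.Goals

/-!
# Rigid curves in projective space: basic API (MP_148db9_ag)
-/

namespace Pool.Agent.Helper64.Rig

open MvPolynomial Module

set_option linter.unusedSectionVars false

variable {K : Type} [Field K] [Algebra ℂ K] {ζ : ℂ} {x : Jx → K}

/-! ## The graded pieces -/

theorem degree_of_homog {τ : Type} {R : Type*} [CommSemiring R] {F : MvPolynomial τ R} {q : ℕ} (hF : F.IsHomogeneous q)
    {m : τ →₀ ℕ} (hm : coeff m F ≠ 0) : m.degree = q := by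
  have h := hF hm
  have h' : (Finsupp.weight (fun _ => 1)) m = q := h
  rwa [← Finsupp.degree_eq_weight_one] at h'

theorem mem_AA {f : K} {q : ℕ} : f ∈ AA x q ↔
    ∃ G : MvPolynomial (Fin 3) ℂ, G.IsHomogeneous q ∧ aeval (pr x) G = f := by
  simp only [AA, Submodule.mem_map, mem_homogeneousSubmodule, AlgHom.toLinearMap_apply]

theorem mem_VV {f : K} {d : ℕ} : f ∈ VV x d ↔
    ∃ G : MvPolynomial Jx ℂ, G.IsHomogeneous d ∧ aeval x G = f := by
  simp only [VV, Submodule.mem_map, mem_homogeneousSubmodule, AlgHom.toLinearMap_apply]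

theorem AA_mul {f g : K} {q r : ℕ} (hf : f ∈ AA x q) (hg : g ∈ AA x r) : f * g ∈ AA x (q + r) := by
  obtain ⟨F, hF, rfl⟩ := mem_AA.1 hf
  obtain ⟨G, hG, rfl⟩ := mem_AA.1 hg
  exact mem_AA.2 ⟨F * G, hF.mul hG, map_mul _ _ _⟩

theorem AA_pow {f : K} {q : ℕ} (hf : f ∈ AA x q) (n : ℕ) : f ^ n ∈ AA x (n * q) := by
  obtain ⟨F, hF, rfl⟩ := mem_AA.1 hf
  exact mem_AA.2 ⟨F ^ n, by rw [mul_comm]; exact hF.pow n, map_pow _ _ _⟩

theorem VV_mul {f g : K} {q r : ℕ} (hf : f ∈ VV x q) (hg : g ∈ VV x r) : f * g ∈ VV x (q + r) := by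
  obtain ⟨F, hF, rfl⟩ := mem_VV.1 hf
  obtain ⟨G, hG, rfl⟩ := mem_VV.1 hg
  exact mem_VV.2 ⟨F * G, hF.mul hG, map_mul _ _ _⟩

theorem VV_pow {f : K} {q : ℕ} (hf : f ∈ VV x q) (n : ℕ) : f ^ n ∈ VV x (n * q) := by
  obtain ⟨F, hF, rfl⟩ := mem_VV.1 hf
  exact mem_VV.2 ⟨F ^ n, by rw [mul_comm]; exact hF.pow n, map_pow _ _ _⟩

theorem const_mem_AA (c : ℂ) : algebraMap ℂ K c ∈ AA x 0 :=
  mem_AA.2 ⟨C c, isHomogeneous_C _ _, by simp⟩

theorem one_mem_AA : (1 : K) ∈ AA x 0 := by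
  have := const_mem_AA (x := x) (1 : ℂ)
  rwa [map_one] at this

theorem mem_AA_zero {f : K} : f ∈ AA x 0 ↔ ∃ c : ℂ, f = algebraMap ℂ K c := by
  constructor
  · intro hf
    obtain ⟨F, hF, rfl⟩ := mem_AA.1 hf
    obtain ⟨c, rfl⟩ : ∃ c, F = C c := by
      refine ⟨coeff 0 F, ?_⟩
      rw [← totalDegree_eq_zero_iff_eq_C]
      rcases eq_or_ne F 0 with h | h
      · rw [h, totalDegree_zero]
      · exact hF.totalDegree h
    exact ⟨c, by simp⟩
  · rintro ⟨c, rfl⟩
    exact const_mem_AA c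

theorem const_mul_mem_AA {f : K} {q : ℕ} (c : ℂ) (hf : f ∈ AA x q) :
    algebraMap ℂ K c * f ∈ AA x q := by
  rw [← Algebra.smul_def]
  exact Submodule.smul_mem _ _ hf

theorem pr_mem_AA (i : Fin 3) : pr x i ∈ AA x 1 :=
  mem_AA.2 ⟨X i, isHomogeneous_X _ _, by simp⟩

theorem el_mem_AA (j : Jx) : el ζ x j ∈ AA x 1 :=
  Submodule.add_mem _ (pr_mem_AA _) (const_mul_mem_AA _ (pr_mem_AA _))

theorem mem_AA_one {f : K} : f ∈ AA x 1 ↔
    ∃ L : Fin 3 → ℂ, f = ∑ i, algebraMap ℂ K (L i) * pr x i := by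
  constructor
  · intro hf
    obtain ⟨F, hF, rfl⟩ := mem_AA.1 hf
    refine ⟨fun i => coeff (Finsupp.single i 1) F, ?_⟩
    have h1 : F = ∑ i, C (coeff (Finsupp.single i 1) F) * X i := by
      ext m
      rw [coeff_sum]
      simp only [coeff_C_mul, coeff_X]
      by_cases hm : coeff m F = 0
      · rw [hm]
        symm
        apply Finset.sum_eq_zero
        intro i _
        by_cases hi : Finsupp.single i 1 = m
        · rw [hi, hm, zero_mul]
        · rw [if_neg hi, mul_zero]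
      · have hd : m.degree = 1 := degree_of_homog hF hm
        obtain ⟨i, rfl⟩ : ∃ i, m = Finsupp.single i 1 := by
          rw [Finsupp.degree_eq_sum] at hd
          obtain ⟨i, hi⟩ : ∃ i, m i ≠ 0 := by
            by_contra hcon
            push Not at hcon
            simp [hcon] at hd
          refine ⟨i, Finsupp.ext fun j => ?_⟩
          have hs := Finset.add_sum_erase Finset.univ (fun k => m k) (Finset.mem_univ i)
          have h1 : m i = 1 := by
            have : m i ≤ 1 := by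
              rw [← hd]; exact Finset.single_le_sum (fun _ _ => Nat.zero_le _) (Finset.mem_univ i)
            omega
          by_cases hj : j = i
          · rw [hj, h1]; simp
          · have h0 : ∑ k ∈ Finset.univ.erase i, m k = 0 := by
              omega
            rw [Finset.sum_eq_zero_iff] at h0
            rw [h0 j (Finset.mem_erase.2 ⟨hj, Finset.mem_univ _⟩), Finsupp.single_apply,
              if_neg (Ne.symm hj)]
        rw [Finset.sum_eq_single i]
        · simp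
        · intro j _ hj
          rw [if_neg, mul_zero]
          intro h
          exact hj (Finsupp.single_left_injective one_ne_zero h)
        · simp
    conv_lhs => rw [h1]
    simp
  · rintro ⟨L, rfl⟩
    exact Submodule.sum_mem _ fun i _ => const_mul_mem_AA _ (pr_mem_AA i)

theorem mul_pow_mem_AA_of {f g : K} {q r : ℕ} (hf : f ^ 5 ∈ AA x q) (hg : g ^ 5 ∈ AA x r) :
    (f * g) ^ 5 ∈ AA x (q + r) := by
  rw [mul_pow]
  exact AA_mul hf hg

theorem x_mem_VV (j : Jx) : x j ∈ VV x 1 :=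
  mem_VV.2 ⟨X j, isHomogeneous_X _ _, by simp⟩

theorem one_mem_VV : (1 : K) ∈ VV x 0 :=
  mem_VV.2 ⟨1, isHomogeneous_one _ _, by simp⟩

theorem const_mul_mem_VV {f : K} {q : ℕ} (c : ℂ) (hf : f ∈ VV x q) :
    algebraMap ℂ K c * f ∈ VV x q := by
  rw [← Algebra.smul_def]
  exact Submodule.smul_mem _ _ hf

theorem mono_mem_VV (b : Jx → ℕ) : mono x b ∈ VV x (∑ j, b j) :=
  mem_VV.2 ⟨∏ j, X j ^ b j, IsHomogeneous.prod _ _ _ fun j _ => by
    simpa using (isHomogeneous_X ℂ j).pow (b j), by simp [mono]⟩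

theorem VV_eq_span (d : ℕ) :
    VV x d = Submodule.span ℂ {f | ∃ b : Jx → ℕ, ∑ j, b j = d ∧ f = mono x b} := by
  apply le_antisymm
  · intro f hf
    obtain ⟨F, hF, rfl⟩ := mem_VV.1 hf
    rw [aeval_def, eval₂_eq']
    refine Submodule.sum_mem _ fun m hm => ?_
    rw [← Algebra.smul_def]
    refine Submodule.smul_mem _ _ (Submodule.subset_span ⟨m, ?_, rfl⟩)
    have := degree_of_homog hF (mem_support_iff.1 hm)
    rwa [Finsupp.degree_eq_sum] at this
  · rw [Submodule.span_le]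
    rintro f ⟨b, hb, rfl⟩
    rw [← hb]
    exact mono_mem_VV b

theorem pr_mem_VV (i : Fin 3) : pr x i ∈ VV x 5 :=
  mem_VV.2 ⟨pr X i, by
    have := IsHomogeneous.prod (R := ℂ) (σ := Jx) Finset.univ (fun k : Fin 5 => X (i, k)) (fun _ => 1)
      fun k _ => isHomogeneous_X ℂ (i, k)
    simpa [pr] using this, by simp [pr]⟩

theorem AA_le_VV (q : ℕ) : AA x q ≤ VV x (5 * q) := by
  intro f hf
  obtain ⟨F, hF, rfl⟩ := mem_AA.1 hf
  rw [aeval_def, eval₂_eq']
  refine Submodule.sum_mem _ fun m hm => ?_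
  refine const_mul_mem_VV _ ?_
  have hd := degree_of_homog hF (mem_support_iff.1 hm)
  rw [Finsupp.degree_eq_sum] at hd
  rw [← hd, Finset.mul_sum]
  have : ∀ s : Finset (Fin 3), ∏ i ∈ s, pr x i ^ m i ∈ VV x (∑ i ∈ s, 5 * m i) := by
    intro s
    induction s using Finset.induction_on with
    | empty => simpa using one_mem_VV
    | insert a s ha ih =>
      rw [Finset.prod_insert ha, Finset.sum_insert ha]
      refine VV_mul ?_ ih
      rw [mul_comm 5]
      exact VV_pow (pr_mem_VV a) _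
  exact this _

theorem aeval_pr_mem_KB (G : MvPolynomial (Fin 3) ℂ) : aeval (pr x) G ∈ KB x := by
  rw [aeval_def, eval₂_eq']
  refine sum_mem fun m _ => mul_mem ((KB x).algebraMap_mem _) (prod_mem fun i _ => pow_mem ?_ _)
  exact IntermediateField.subset_adjoin _ _ ⟨i, rfl⟩

theorem pr_mem_KB (i : Fin 3) : pr x i ∈ KB x := IntermediateField.subset_adjoin _ _ ⟨i, rfl⟩

theorem AA_le_KB {f : K} {q : ℕ} (hf : f ∈ AA x q) : f ∈ KB x := by
  obtain ⟨F, -, rfl⟩ := mem_AA.1 hf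
  exact aeval_pr_mem_KB F

theorem mem_AB {f : K} : f ∈ AB x ↔ ∃ G : MvPolynomial (Fin 3) ℂ, aeval (pr x) G = f := by
  rw [AB, Algebra.adjoin_range_eq_range_aeval]
  exact Iff.rfl

theorem AA_le_AB {f : K} {q : ℕ} (hf : f ∈ AA x q) : f ∈ AB x := by
  obtain ⟨F, -, h⟩ := mem_AA.1 hf
  exact mem_AB.2 ⟨F, h⟩

theorem AB_le_KB {f : K} (hf : f ∈ AB x) : f ∈ KB x := by
  obtain ⟨F, rfl⟩ := mem_AB.1 hf
  exact aeval_pr_mem_KB F

theorem el_mem_KB (j : Jx) : el ζ x j ∈ KB x := AA_le_KB (el_mem_AA j)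

/-- Elements of `KB x` are quotients of elements of `AB x`. -/
theorem mem_KB_div {f : K} (hf : f ∈ KB x) : ∃ a ∈ AB x, ∃ b ∈ AB x, b ≠ 0 ∧ f = a / b := by
  rw [KB, IntermediateField.mem_adjoin_iff_div] at hf
  obtain ⟨a, ha, b, hb, hab⟩ := hf
  by_cases h0 : b = 0
  · refine ⟨0, Subalgebra.zero_mem _, 1, Subalgebra.one_mem _, one_ne_zero, ?_⟩
    rw [hab, h0, div_zero, zero_div]
  · exact ⟨a, ha, b, hb, h0, hab⟩

/-! ## The relations -/

theorem pow_five (h : Cov ζ x) (j : Jx) : x j ^ 5 = -el ζ x j := eq_neg_of_add_eq_zero_left (h.rel j)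

/-- `∏ k, (a + ζ ^ k b) = a ^ 5 + b ^ 5`. -/
theorem prod_add_zeta {R : Type*} [CommRing R] [Algebra ℂ R] (hζ : IsPrimitiveRoot ζ 5) (a b : R) :
    ∏ k : Fin 5, (a + algebraMap ℂ R (ζ ^ (k : ℕ)) * b) = a ^ 5 + b ^ 5 := by
  have h1 : (1 : ℂ) + ζ + ζ ^ 2 + ζ ^ 3 + ζ ^ 4 = 0 := by
    have := hζ.geom_sum_eq_zero (by norm_num)
    simpa [Finset.sum_range_succ] using this
  have h5 : ζ ^ 5 = 1 := hζ.pow_eq_one
  set z := algebraMap ℂ R ζ with hz
  have h1' : (1 : R) + z + z ^ 2 + z ^ 3 + z ^ 4 = 0 := by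
    have := congrArg (algebraMap ℂ R) h1
    simpa [map_add, map_pow] using this
  have h5' : z ^ 5 = 1 := by
    have := congrArg (algebraMap ℂ R) h5
    simpa [map_pow] using this
  simp only [Fin.prod_univ_five, map_pow]
  simp only [Fin.val_zero, Fin.val_one, Fin.val_two, pow_zero, pow_one, one_mul]
  have e3 : ((3 : Fin 5) : ℕ) = 3 := rfl
  have e4 : ((4 : Fin 5) : ℕ) = 4 := rfl
  rw [e3, e4]
  linear_combination (a ^ 4 * b + z * (1 + z ^ 2) * a ^ 3 * b ^ 2 + z ^ 3 * (1 + z ^ 2) * a ^ 2 * b ^ 3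
    + z ^ 6 * a * b ^ 4) * h1' + b ^ 5 * (z ^ 5 + 1) * h5'


theorem prod_el (h : Cov ζ x) (i : Fin 3) :
    ∏ k : Fin 5, el ζ x (i, k) = pr x (i + 1) ^ 5 + pr x (i + 2) ^ 5 :=
  prod_add_zeta h.prim _ _

theorem pr_pow_five (h : Cov ζ x) (i : Fin 3) :
    pr x i ^ 5 = -(pr x (i + 1) ^ 5 + pr x (i + 2) ^ 5) := by
  rw [← prod_el h i]
  unfold pr
  rw [← Finset.prod_pow]
  simp only [pow_five h]
  rw [Finset.prod_neg]
  simp only [Finset.card_univ, Fintype.card_fin]
  ring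

theorem fermat (h : Cov ζ x) : pr x 0 ^ 5 + pr x 1 ^ 5 + pr x 2 ^ 5 = 0 := by
  have := pr_pow_five h 0
  simp only [zero_add] at this
  rw [this]
  ring

theorem aeval_FF (h : Cov ζ x) : aeval (pr x) FF = 0 := by
  simp only [FF, Fin.sum_univ_three, map_add, map_pow, aeval_X]
  exact fermat h

theorem algebraMap_inj {a b : ℂ} (h : algebraMap ℂ K a = algebraMap ℂ K b) : a = b :=
  (algebraMap ℂ K).injective h

/-- `a * p 1 ^ 5 + b * p 2 ^ 5` does not vanish. -/
theorem indep_lin (h : Cov ζ x) {G : MvPolynomial (Fin 2) ℂ} (hG : aeval ![pr x 1, pr x 2] G = 0) :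
    G = 0 := by
  have := h.indep
  rw [algebraicIndependent_iff] at this
  exact this G hG

theorem pr_ne (h : Cov ζ x) (i : Fin 3) : pr x i ≠ 0 := by
  have h1 : pr x 1 ≠ 0 := by
    intro h0
    have := indep_lin h (G := X 0) (by simp [h0])
    exact X_ne_zero _ this
  have h2 : pr x 2 ≠ 0 := by
    intro h0
    have := indep_lin h (G := X 1) (by simp [h0])
    exact X_ne_zero _ this
  have h0 : pr x 0 ≠ 0 := by
    intro h0
    have hf := fermat h
    rw [h0] at hf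
    have := indep_lin h (G := X 0 ^ 5 + X 1 ^ 5) (by
      simp only [map_add, map_pow, aeval_X, Matrix.cons_val_zero, Matrix.cons_val_one]
      linear_combination hf)
    have h3 := congrArg (eval ![1, 0]) this
    simp at h3
  fin_cases i
  · exact h0
  · exact h1
  · exact h2

theorem x_ne (h : Cov ζ x) (j : Jx) : x j ≠ 0 := by
  have := pr_ne h j.1
  unfold pr at this
  rw [Finset.prod_ne_zero_iff] at this
  exact this j.2 (Finset.mem_univ _)

theorem el_ne (h : Cov ζ x) (j : Jx) : el ζ x j ≠ 0 := by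
  intro h0
  have := pow_five h j
  rw [h0, neg_zero] at this
  exact x_ne h j (by simpa using this)

theorem hat_eq (h : Cov ζ x) (j : Jx) :
    hat x j = ∏ k ∈ Finset.univ.erase j.2, el ζ x (j.1, k) := by
  unfold hat
  simp only [pow_five h]
  rw [Finset.prod_neg]
  have : (Finset.univ.erase j.2).card = 4 := by
    rw [Finset.card_erase_of_mem (Finset.mem_univ _)]; rfl
  rw [this]
  norm_num

theorem hat_mul (j : Jx) : hat x j * x j ^ 5 = pr x j.1 ^ 5 := by
  unfold hat pr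
  rw [← Finset.prod_pow, mul_comm]
  exact Finset.mul_prod_erase Finset.univ (fun k => x (j.1, k) ^ 5) (Finset.mem_univ j.2)

theorem hat_mem_AA (h : Cov ζ x) (j : Jx) : hat x j ∈ AA x 4 := by
  rw [hat_eq h]
  have key : ∀ s : Finset (Fin 5), ∏ k ∈ s, el ζ x (j.1, k) ∈ AA x s.card := by
    intro s
    induction s using Finset.induction_on with
    | empty => simpa using one_mem_AA
    | insert a s ha ih =>
      rw [Finset.prod_insert ha, Finset.card_insert_of_notMem ha, add_comm]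
      exact AA_mul (el_mem_AA _) ih
  have := key (Finset.univ.erase j.2)
  rwa [Finset.card_erase_of_mem (Finset.mem_univ _)] at this

theorem hat_ne (h : Cov ζ x) (j : Jx) : hat x j ≠ 0 := by
  intro h0
  have := hat_mul (x := x) j
  rw [h0, zero_mul] at this
  exact pr_ne h j.1 (by simpa using this.symm)

/-! ## The lines of the monomials -/

theorem mono_ne (h : Cov ζ x) (a : Jx → ℕ) : mono x a ≠ 0 :=
  Finset.prod_ne_zero_iff.2 fun j _ => pow_ne_zero _ (x_ne h j)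

theorem mono_add (a b : Jx → ℕ) : mono x (a + b) = mono x a * mono x b := by
  simp only [mono, Pi.add_apply, pow_add, Finset.prod_mul_distrib]

theorem mono_zero : mono x 0 = 1 := by simp [mono]

theorem mono_nsmul (n : ℕ) (a : Jx → ℕ) : mono x (n • a) = mono x a ^ n := by
  simp only [mono, Pi.smul_apply, smul_eq_mul, ← Finset.prod_pow, ← pow_mul]
  exact Finset.prod_congr rfl fun j _ => by rw [mul_comm]

theorem mono_single (j : Jx) : mono x (Pi.single j 1) = x j := by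
  unfold mono
  rw [Finset.prod_eq_single j]
  · simp
  · intro b _ hb
    rw [Pi.single_eq_of_ne hb, pow_zero]
  · simp

theorem mono_pow_five (h : Cov ζ x) (a : Jx → ℕ) :
    mono x a ^ 5 = ∏ j, (-el ζ x j) ^ a j := by
  unfold mono
  rw [← Finset.prod_pow]
  exact Finset.prod_congr rfl fun j _ => by rw [← pow_five h, ← pow_mul, ← pow_mul, mul_comm]

theorem mono_pow_five_mem_AA (h : Cov ζ x) (a : Jx → ℕ) : mono x a ^ 5 ∈ AA x (∑ j, a j) := by
  rw [mono_pow_five h]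
  have key : ∀ s : Finset Jx, ∏ j ∈ s, (-el ζ x j) ^ a j ∈ AA x (∑ j ∈ s, a j) := by
    intro s
    induction s using Finset.induction_on with
    | empty => simpa using one_mem_AA
    | insert b s hb ih =>
      rw [Finset.prod_insert hb, Finset.sum_insert hb]
      refine AA_mul ?_ ih
      have := AA_pow (Submodule.neg_mem _ (el_mem_AA (ζ := ζ) (x := x) b)) (a b)
      rwa [mul_one] at this
  exact key _

theorem mono_pow_five_mem_KB (h : Cov ζ x) (a : Jx → ℕ) : mono x a ^ 5 ∈ KB x :=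
  AA_le_KB (mono_pow_five_mem_AA h a)

theorem inLine_zero {f : K} : InLine x 0 f ↔ f ∈ KB x := by
  unfold InLine
  rw [mono_zero]
  constructor
  · rintro ⟨ρ, hρ, rfl⟩
    rwa [mul_one]
  · intro hf
    exact ⟨f, hf, (mul_one f).symm⟩

theorem InLine.zero (a : Jx → ℕ) : InLine x a (0 : K) := ⟨0, zero_mem _, (zero_mul _).symm⟩

theorem InLine.mono (a : Jx → ℕ) : InLine x a (mono x a) := ⟨1, one_mem _, (one_mul _).symm⟩

theorem InLine.single (j : Jx) : InLine x (Pi.single j 1) (x j) :=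
  ⟨1, one_mem _, by rw [mono_single, one_mul]⟩

theorem InLine.add {a : Jx → ℕ} {f g : K} (hf : InLine x a f) (hg : InLine x a g) :
    InLine x a (f + g) := by
  obtain ⟨ρ, hρ, rfl⟩ := hf
  obtain ⟨τ, hτ, rfl⟩ := hg
  exact ⟨ρ + τ, add_mem hρ hτ, by ring⟩

theorem InLine.mul {a b : Jx → ℕ} {f g : K} (hf : InLine x a f) (hg : InLine x b g) :
    InLine x (a + b) (f * g) := by
  obtain ⟨ρ, hρ, rfl⟩ := hf
  obtain ⟨τ, hτ, rfl⟩ := hg
  exact ⟨ρ * τ, mul_mem hρ hτ, by rw [mono_add]; ring⟩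

theorem InLine.mul_KB {a : Jx → ℕ} {f r : K} (hf : InLine x a f) (hr : r ∈ KB x) :
    InLine x a (r * f) := by
  obtain ⟨ρ, hρ, rfl⟩ := hf
  exact ⟨r * ρ, mul_mem hr hρ, by ring⟩

theorem InLine.pow_five {a : Jx → ℕ} {f : K} (h : Cov ζ x) (hf : InLine x a f) : f ^ 5 ∈ KB x := by
  obtain ⟨ρ, hρ, rfl⟩ := hf
  rw [mul_pow]
  exact mul_mem (pow_mem hρ 5) (mono_pow_five_mem_KB h a)

theorem InLine.inv {a : Jx → ℕ} {f : K} (h : Cov ζ x) (hf : InLine x a f) :
    InLine x (4 • a) f⁻¹ := by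
  obtain ⟨ρ, hρ, rfl⟩ := hf
  refine ⟨(ρ * (Pool.Agent.Helper64.Rig.mono x a) ^ 5)⁻¹,
    inv_mem (mul_mem hρ (mono_pow_five_mem_KB h a)), ?_⟩
  rw [mono_nsmul]
  have := mono_ne h a
  by_cases h0 : ρ = 0
  · simp [h0]
  · field_simp

theorem InLine.div {a : Jx → ℕ} {f g : K} (h : Cov ζ x) (hf : InLine x a f) (hg : InLine x a g) :
    f / g ∈ KB x := by
  obtain ⟨ρ, hρ, rfl⟩ := hf
  obtain ⟨τ, hτ, rfl⟩ := hg
  rw [mul_div_mul_right _ _ (mono_ne h a)]
  exact div_mem hρ hτ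

/-- The exponents may be reduced modulo `5`. -/
theorem InLine.mod {a : Jx → ℕ} {f : K} (h : Cov ζ x) (hf : InLine x a f) :
    InLine x (fun j => a j % 5) f := by
  obtain ⟨ρ, hρ, rfl⟩ := hf
  refine ⟨ρ * (Pool.Agent.Helper64.Rig.mono x (fun j => a j / 5)) ^ 5,
    mul_mem hρ (mono_pow_five_mem_KB h _), ?_⟩
  rw [mul_assoc, ← mono_nsmul, ← mono_add]
  congr 2
  funext j
  simp only [Pi.add_apply, Pi.smul_apply, smul_eq_mul]
  omega

/-! ## Constants -/

/-- An element of `K` whose fifth power is a constant is a constant. -/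
theorem const_of_pow_five {f : K} {c : ℂ} (hf : f ^ 5 = algebraMap ℂ K c) :
    ∃ c' : ℂ, f = algebraMap ℂ K c' := by
  have h1 : IsIntegral ℂ f := by
    refine IsIntegral.of_pow (n := 5) (by norm_num) ?_
    rw [hf]
    exact isIntegral_algebraMap
  have h3 : (minpoly ℂ f).degree = 1 :=
    IsAlgClosed.degree_eq_one_of_irreducible ℂ (minpoly.irreducible h1)
  obtain ⟨c', hc'⟩ := minpoly.mem_range_of_degree_eq_one ℂ f h3
  exact ⟨c', hc'.symm⟩

end Pool.Agent.Helper64.Rig
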