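import Mathlib

/-!
# Rigid curves in projective space: definitions (MP_148db9_ag)

The homogeneous coordinates of the projective space are indexed by a finite type `σ`; the
projective space has dimension `card σ - 1`.
-/

namespace Pool.Agent.Helper64.Rig

open MvPolynomial

/-! ## Curves -/

section
variable {σ : Type} [Fintype σ] [DecidableEq σ]

/-- A homogeneous ideal: it contains the homogeneous components of its elements. -/
def Homog {R : Type} [CommRing R] (J : Ideal (MvPolynomial σ R)) : Prop :=
  ∀ G ∈ J, ∀ d, homogeneousComponent d G ∈ J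

/-- `I` is the homogeneous ideal of a smooth irreducible projective curve: `I` is a homogeneous
prime ideal, the affine cone has dimension `2`, and at every point of the projective variety the
gradients of the elements of `I` span a space of dimension `card σ - 2`
(Jacobian criterion: `card σ - 2` is the codimension of a curve in `P^(card σ - 1)`). -/
structure IsSmoothCurve (I : Ideal (MvPolynomial σ ℂ)) : Prop where
  homog : Homog I
  prime : I.IsPrime
  dim : ringKrullDim (MvPolynomial σ ℂ ⧸ I) = 2
  smooth : ∀ p : σ → ℂ, p ≠ 0 → (∀ G ∈ I, eval p G = 0) →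
    Module.finrank ℂ (Submodule.span ℂ {v : σ → ℂ | ∃ G ∈ I, v = fun i => eval p (pderiv i G)}) + 2
      = Fintype.card σ

/-- The curve lies in no hyperplane. -/
def Nondegenerate (I : Ideal (MvPolynomial σ ℂ)) : Prop :=
  ∀ G ∈ I, G.IsHomogeneous 1 → G = 0

/-- `I` is the homogeneous ideal of a rational normal curve: the image of `P^1` under the map
given by a basis of the binary forms of degree `card σ - 1`. -/
def IsRationalNormal (I : Ideal (MvPolynomial σ ℂ)) : Prop :=
  ∃ f : σ → MvPolynomial (Fin 2) ℂ, (∀ i, (f i).IsHomogeneous (Fintype.card σ - 1)) ∧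
    LinearIndependent ℂ f ∧ I = RingHom.ker (aeval f : MvPolynomial σ ℂ →ₐ[ℂ] MvPolynomial (Fin 2) ℂ)

/-! ## Families -/

/-- The part of degree `m` of an ideal. -/
noncomputable def part {R : Type} [CommRing R] (J : Ideal (MvPolynomial σ R)) (m : ℕ) :
    Submodule R (homogeneousSubmodule σ R m) :=
  (J.restrictScalars R).comap (homogeneousSubmodule σ R m).subtype

/-- The homogeneous ideal `J` of `R[x]` defines a closed subscheme of the projective space over
`Spec R` which is flat over `Spec R`: the graded pieces of `R[x]/J` of all large degrees are flat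
`R`-modules. -/
structure IsFlatFamily {R : Type} [CommRing R] (J : Ideal (MvPolynomial σ R)) : Prop where
  homog : Homog J
  flat : ∃ m₀ : ℕ, ∀ m ≥ m₀, Module.Flat R (homogeneousSubmodule σ R m ⧸ part J m)

/-- Two homogeneous ideals define the same closed subscheme of the projective space: they agree in
all large degrees. -/
def SameScheme {R : Type} [CommRing R] (I I' : Ideal (MvPolynomial σ R)) : Prop :=
  ∃ m₀ : ℕ, ∀ m ≥ m₀, ∀ G : MvPolynomial σ R, G.IsHomogeneous m → (G ∈ I ↔ G ∈ I')

/-- The linear substitution `X i ↦ ∑ j, g i j • X j`. -/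
noncomputable def lin {R : Type} [CommRing R] (g : Matrix σ σ R) :
    MvPolynomial σ R →ₐ[R] MvPolynomial σ R :=
  aeval fun i => ∑ j, C (g i j) * X j

/-- The fibre of the family `J` at the point `x`. -/
noncomputable def fibre {R : Type} [CommRing R] [Algebra ℂ R] (J : Ideal (MvPolynomial σ R))
    (x : R →ₐ[ℂ] ℂ) : Ideal (MvPolynomial σ ℂ) :=
  J.map (MvPolynomial.map (x : R →+* ℂ))

/-- `I` is rigid: in every flat family of closed subschemes of the projective space over an affine
scheme `Spec R` of finite type over `ℂ` whose fibre at a point `x₀` is the subscheme defined by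
`I`, all fibres over an open neighbourhood `r ≠ 0` of `x₀` are projectively equivalent to it.
(The Hilbert scheme represents the flat families, so this says that the orbit of `[I]` under the
projective linear group contains an open neighbourhood of the point `[I]` of the Hilbert
scheme.) -/
def Rigid (I : Ideal (MvPolynomial σ ℂ)) : Prop :=
  ∀ (R : Type) [CommRing R] [Algebra ℂ R] [Algebra.FiniteType ℂ R]
    (J : Ideal (MvPolynomial σ R)), IsFlatFamily J → ∀ x₀ : R →ₐ[ℂ] ℂ, SameScheme (fibre J x₀) I →
    ∃ r : R, x₀ r ≠ 0 ∧ ∀ x : R →ₐ[ℂ] ℂ, x r ≠ 0 →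
      ∃ g : GL σ ℂ, SameScheme (fibre J x) (I.map (lin (g : Matrix σ σ ℂ)))

/-! ## Infinitesimal rigidity -/

/-- The derivation `∑ i j, A i j X j ∂/∂X i`. -/
noncomputable def der (A : Matrix σ σ ℂ) (G : MvPolynomial σ ℂ) : MvPolynomial σ ℂ :=
  ∑ i, ∑ j, C (A i j) * X j * pderiv i G

/-- Every first order deformation (in large degrees) of the ideal `I` is induced by a linear
change of coordinates. `D m` is the set of the pairs `(G, H)` of forms of degree `m` such that
`G + ε H` is in the deformed ideal. -/
def InfRigid (I : Ideal (MvPolynomial σ ℂ)) : Prop :=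
  ∀ (m₀ : ℕ) (D : ℕ → Submodule ℂ (MvPolynomial σ ℂ × MvPolynomial σ ℂ)),
    (∀ m ≥ m₀, ∀ z ∈ D m, z.1.IsHomogeneous m ∧ z.2.IsHomogeneous m ∧ z.1 ∈ I) →
    (∀ m ≥ m₀, ∀ G ∈ I, G.IsHomogeneous m → ∃ H, (G, H) ∈ D m) →
    (∀ m ≥ m₀, ∀ H : MvPolynomial σ ℂ, H.IsHomogeneous m → ((0, H) ∈ D m ↔ H ∈ I)) →
    (∀ m ≥ m₀, ∀ z ∈ D m, ∀ i, (X i * z.1, X i * z.2) ∈ D (m + 1)) →
    ∃ A : Matrix σ σ ℂ, ∀ m ≥ m₀, ∀ z ∈ D m, z.2 - der A z.1 ∈ I

end

/-! ## The covering curve of the Fermat quintic -/

/-- The index set of the coordinates. -/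
abbrev Jx : Type := Fin 3 × Fin 5

section
variable {A : Type} [CommRing A] [Algebra ℂ A]

/-- The product of the five coordinates of the block `i`. -/
noncomputable def pr (x : Jx → A) (i : Fin 3) : A := ∏ k : Fin 5, x (i, k)

/-- The linear form `P (i+1) + ζ^k P (i+2)` in the products of the blocks, `j = (i, k)`. -/
noncomputable def el (ζ : ℂ) (x : Jx → A) (j : Jx) : A :=
  pr x (j.1 + 1) + algebraMap ℂ A (ζ ^ (j.2 : ℕ)) * pr x (j.1 + 2)

/-- The product of the fifth powers of the four other coordinates of the block of `j`. -/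
noncomputable def hat (x : Jx → A) (j : Jx) : A :=
  ∏ k ∈ Finset.univ.erase j.2, x (j.1, k) ^ 5

/-- The monomial with exponents `a`. -/
noncomputable def mono (x : Jx → A) (a : Jx → ℕ) : A := ∏ j, x j ^ a j

end

/-- The equations of the curve. -/
noncomputable def EE (ζ : ℂ) (j : Jx) : MvPolynomial Jx ℂ := X j ^ 5 + el ζ X j

/-- The equation of the Fermat quintic. -/
noncomputable def FF : MvPolynomial (Fin 3) ℂ := ∑ i, X i ^ 5

section
variable {K : Type} [Field K] [Algebra ℂ K]

/-- The function field (of the cone) of a component of the curve `x j ^ 5 + el j = 0`. -/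
structure Cov (ζ : ℂ) (x : Jx → K) : Prop where
  prim : IsPrimitiveRoot ζ 5
  rel : ∀ j, x j ^ 5 + el ζ x j = 0
  gen : IntermediateField.adjoin ℂ (Set.range x) = ⊤
  indep : AlgebraicIndependent ℂ ![pr x 1, pr x 2]
  graded : ∀ G : MvPolynomial Jx ℂ, aeval x G = 0 → ∀ d, aeval x (homogeneousComponent d G) = 0

/-- The forms of degree `q` on the Fermat quintic. -/
noncomputable def AA (x : Jx → K) (q : ℕ) : Submodule ℂ K :=
  (homogeneousSubmodule (Fin 3) ℂ q).map (aeval (pr x) : MvPolynomial (Fin 3) ℂ →ₐ[ℂ] K).toLinearMap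

/-- The forms of degree `d` on the covering curve. -/
noncomputable def VV (x : Jx → K) (d : ℕ) : Submodule ℂ K :=
  (homogeneousSubmodule Jx ℂ d).map (aeval x : MvPolynomial Jx ℂ →ₐ[ℂ] K).toLinearMap

/-- The function field (of the cone) of the Fermat quintic. -/
noncomputable def KB (x : Jx → K) : IntermediateField ℂ K :=
  IntermediateField.adjoin ℂ (Set.range (pr x))

/-- `f` lies in the line of the monomial with exponents `a`. -/
def InLine (x : Jx → K) (a : Jx → ℕ) (f : K) : Prop := ∃ ρ ∈ KB x, f = ρ * mono x a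

end

end Pool.Agent.Helper64.Rig
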