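import Pool.Agent.Helper64.Rig.Defs

/-!
# Rigid curves in projective space: the list of the goals (MP_148db9_ag)
-/

namespace Pool.Agent.Helper64.Rig

open MvPolynomial Module

/-! ## A. The Fermat quintic -/

section
variable {K : Type} [Field K] [Algebra ℂ K]

/-- The coordinate ring of the Fermat quintic inside `K`. -/
noncomputable def AB (x : Jx → K) : Subalgebra ℂ K := Algebra.adjoin ℂ (Set.range (pr x))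

end

def StmtKer : Prop := ∀ (K : Type) [Field K] [Algebra ℂ K] (ζ : ℂ) (x : Jx → K), Cov ζ x →
  (∀ G : MvPolynomial (Fin 3) ℂ, aeval (pr x) G = 0 → FF ∣ G) ∧
  ∀ (q : ℕ) (G : MvPolynomial (Fin 3) ℂ), q < 5 → G.IsHomogeneous q → aeval (pr x) G = 0 → G = 0

def StmtDim : Prop := ∀ (K : Type) [Field K] [Algebra ℂ K] (ζ : ℂ) (x : Jx → K), Cov ζ x →
  (∀ q, FiniteDimensional ℂ (AA x q)) ∧ (∀ q, 3 ≤ q → finrank ℂ (AA x q) + 5 = 5 * q) ∧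
  finrank ℂ (AA x 1) = 3

def StmtGr : Prop := ∀ (K : Type) [Field K] [Algebra ℂ K] (ζ : ℂ) (x : Jx → K), Cov ζ x →
  (∀ g ∈ AB x, ∀ (s : K) (d q : ℕ), s ∈ AA x d → s ≠ 0 → s * g ∈ AA x (d + q) → g ∈ AA x q) ∧
  (∀ g ∈ AB x, ∀ q : ℕ, g ^ 5 ∈ AA x (5 * q) → g ∈ AA x q) ∧
  (∀ g ∈ AB x, ∀ q : ℕ, g ∈ VV x (5 * q) → g ∈ AA x q) ∧
  (∀ g ∈ KB x, g ≠ 0 → ∀ (s : K) (e d : ℕ), s ∈ AA x e → s ≠ 0 → g ^ 5 * s ∈ AA x d →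
    ∃ (m₁ m₂ : ℕ) (a₁ a₂ : K), a₁ ∈ AA x m₁ ∧ a₂ ∈ AA x m₂ ∧ a₁ ≠ 0 ∧ a₂ ≠ 0 ∧ g * a₂ = a₁ ∧
      5 * m₁ + e = d + 5 * m₂)

def StmtNormal : Prop := ∀ (K : Type) [Field K] [Algebra ℂ K] (ζ : ℂ) (x : Jx → K), Cov ζ x →
  ∀ g ∈ KB x, IsIntegral (AB x) g → g ∈ AB x

def StmtNorm : Prop := ∀ (K : Type) [Field K] [Algebra ℂ K] (ζ : ℂ) (x : Jx → K), Cov ζ x →
  ∀ g ∈ KB x, ∀ q : ℕ, g ^ 5 ∈ AA x (5 * q) → g ∈ AA x q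

def StmtCop : Prop := ∀ (K : Type) [Field K] [Algebra ℂ K] (ζ : ℂ) (x : Jx → K), Cov ζ x →
  ∀ (j j' : Jx), j ≠ j' → ∀ (g : K) (q k k' : ℕ), el ζ x j ^ k * g ∈ AA x (q + k) →
    el ζ x j' ^ k' * g ∈ AA x (q + k') → g ∈ AA x q

def StmtLine : Prop := ∀ (ζ ξ c : ℂ), IsPrimitiveRoot ζ 5 → ξ ≠ 0 → ξ ^ 5 + c ^ 5 + 1 = 0 →
  ∀ (q : ℕ) (G : MvPolynomial (Fin 3) ℂ), G.IsHomogeneous (q + 1) →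
    (∀ i : Fin 5, eval ![ζ ^ (i : ℕ) * ξ, c, 1] G = 0) →
    ∃ G' : MvPolynomial (Fin 3) ℂ, G'.IsHomogeneous q ∧ FF ∣ G - (X 1 - C c * X 2) * G'

def StmtGen : Prop := ∀ (d : ℕ) (G : MvPolynomial (Fin 3) ℂ), G.IsHomogeneous d → ¬ FF ∣ G →
  {c : ℂ | ∃ ξ : ℂ, ξ ^ 5 + c ^ 5 + 1 = 0 ∧ eval ![ξ, c, 1] G = 0}.Finite

def StmtDp : Prop := ∀ (K : Type) [Field K] [Algebra ℂ K] (ζ : ℂ) (x : Jx → K), Cov ζ x →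
  ∀ (ξ c : ℂ), ξ ≠ 0 → ξ ^ 5 + c ^ 5 + 1 = 0 → ∀ (d : ℕ) (G : MvPolynomial (Fin 3) ℂ),
    G.IsHomogeneous d → (∀ i : Fin 5, eval ![ζ ^ (i : ℕ) * ξ, c, 1] G ≠ 0) →
    ∀ (g : K) (q k : ℕ), (pr x 1 - algebraMap ℂ K c * pr x 2) ^ k * g ∈ AA x (q + k) →
      aeval (pr x) G * g ∈ AA x (q + d) → g ∈ AA x q

/-! ## B. The key lemma -/

def StmtPair : Prop := ∀ (ζ : ℂ), IsPrimitiveRoot ζ 5 → ∀ V W : Submodule ℂ (Fin 5 → ℂ),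
  (∀ v ∈ V, ∀ w ∈ W, ∑ i : Fin 5, ζ ^ (i : ℕ) * (v i * w i) = 0) → finrank ℂ V + finrank ℂ W ≤ 5

def StmtGrow : Prop := ∀ (ζ : ℂ), IsPrimitiveRoot ζ 5 → ∀ V₀ V₁ V₂ : Submodule ℂ (Fin 5 → ℂ),
  V₀ ≤ V₁ → V₁ ≤ V₂ → (∀ v ∈ V₀, (fun i : Fin 5 => ζ ^ (i : ℕ) * v i) ∈ V₁) →
  (∀ v ∈ V₁, (fun i : Fin 5 => ζ ^ (i : ℕ) * v i) ∈ V₂) → (fun _ => 1) ∈ V₁ →
  finrank ℂ V₀ + finrank ℂ V₁ + finrank ℂ V₂ ≤ 5 →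
  V₀ = ⊥ ∧ finrank ℂ V₁ ≤ 2 ∧ (finrank ℂ V₁ = 2 → finrank ℂ V₂ = 3)

def StmtW : Prop := ∀ (K : Type) [Field K] [Algebra ℂ K] (ζ : ℂ) (x : Jx → K), Cov ζ x →
  ∀ (b : ℕ → Submodule ℂ K) (Bad : Set ℂ), Bad.Finite →
    (∀ q, b q ≤ AA x q) →
    (∀ q, ∀ l ∈ AA x 1, ∀ v ∈ b q, l * v ∈ b (q + 1)) →
    b 1 = ⊥ →
    (∃ q, 4 ≤ q ∧ 5 * q ≤ finrank ℂ (b q) + 10) →
    (∀ c ∉ Bad, ∀ q, 1 ≤ q → ∀ v ∈ AA x q,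
      (pr x 1 - algebraMap ℂ K c * pr x 2) * v ∈ b (q + 1) → v ∈ b q) →
    ∀ h : K, (∀ q, 1 ≤ q → ∀ v ∈ b q, h * v ∈ AA x q) → (∀ c : ℂ, h ≠ algebraMap ℂ K c) →
      (∃ l ∈ AA x 1, l ≠ 0 ∧ l * h ∈ AA x 1) ∧
      ∀ h' : K, (∀ q, 1 ≤ q → ∀ v ∈ b q, h' * v ∈ AA x q) →
        ∃ α β : ℂ, h' = algebraMap ℂ K α + algebraMap ℂ K β * h

/-! ## C. The line bundles of degree five -/

def StmtAdd : Prop := ∀ (K : Type) [Field K] [Algebra ℂ K] (ζ : ℂ) (x : Jx → K), Cov ζ x →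
  ∀ (a : Jx → ℕ) (f f' : K) (d : ℕ), InLine x a f → InLine x a f' → f ^ 5 ∈ AA x d →
    f' ^ 5 ∈ AA x d → (f + f') ^ 5 ∈ AA x d

def StmtCusp : Prop := ∀ (K : Type) [Field K] [Algebra ℂ K] (ζ : ℂ) (x : Jx → K), Cov ζ x →
  ∀ (a : Jx → ℕ), (∀ j, a j ≤ 4) → ∀ r : ℕ, 60 ≤ r → ∃ W : Submodule ℂ K, W ≤ AA x r ∧
    finrank ℂ (AA x r) ≤ finrank ℂ W + ∑ j, a j ∧
    ∀ b ∈ W, (b / mono x a) ^ 5 ∈ AA x (5 * r - ∑ j, a j)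

def StmtCod : Prop := ∀ (K : Type) [Field K] [Algebra ℂ K] (ζ : ℂ) (x : Jx → K), Cov ζ x →
  ∀ (a : Jx → ℕ) (s : K) (d : ℕ), InLine x a s → s ≠ 0 → s ^ 5 ∈ AA x d →
    ∃ q₀ : ℕ, ∀ q, q₀ ≤ q → ∃ W : Submodule ℂ K, W ≤ AA x q ∧ 5 * q ≤ finrank ℂ W + 5 + d ∧
      ∀ b ∈ W, (b / s) ^ 5 ∈ AA x (5 * q - d)

def StmtPsi : Prop := ∀ (K : Type) [Field K] [Algebra ℂ K] (ζ : ℂ) (x : Jx → K), Cov ζ x →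
  ∀ (a : Jx → ℕ) (f₀ f₁ : K), InLine x a f₀ → InLine x a f₁ → f₀ ∉ KB x →
    f₀ ^ 5 ∈ AA x 5 → f₁ ^ 5 ∈ AA x 5 → (∀ c : ℂ, f₁ ≠ algebraMap ℂ K c * f₀) →
    (∃ l ∈ AA x 1, l ≠ 0 ∧ l * (f₁ / f₀) ∈ AA x 1) ∧
    ∀ f : K, InLine x a f → f ^ 5 ∈ AA x 5 →
      ∃ α β : ℂ, f = algebraMap ℂ K α * f₀ + algebraMap ℂ K β * f₁

def StmtPt5 : Prop := ∀ (K : Type) [Field K] [Algebra ℂ K] (ζ : ℂ) (x : Jx → K), Cov ζ x →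
  ∀ (l l' : K), l ∈ AA x 1 → l' ∈ AA x 1 → LinearIndependent ℂ ![l, l'] →
    ∃ q₀ : ℕ, ∀ q, q₀ ≤ q → ∃ W : Submodule ℂ K, W ≤ AA x q ∧ 5 * q ≤ finrank ℂ W + 10 ∧
      ∀ h : K, (∀ i ≤ 5, l ^ i * l' ^ (5 - i) * h ∈ AA x 5) → ∀ b ∈ W, h * b ∈ AA x q

def StmtPole : Prop := ∀ (K : Type) [Field K] [Algebra ℂ K] (ζ : ℂ) (x : Jx → K), Cov ζ x →
  ∀ (l l' : K), l ∈ AA x 1 → l' ∈ AA x 1 → LinearIndependent ℂ ![l, l'] →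
    ∀ h : K, (∀ i ≤ 5, l ^ i * l' ^ (5 - i) * h ∈ AA x 5) →
      (∃ c : ℂ, h = algebraMap ℂ K c) ∨ ∃ m ∈ AA x 1, m ≠ 0 ∧ m * h ∈ AA x 1

def StmtFlex : Prop := ∀ (ζ : ℂ), IsPrimitiveRoot ζ 5 → ∀ (L Q₁ Q₂ : Fin 3 → ℂ), L ≠ 0 →
  (∀ v : Fin 3 → ℂ, ∑ i, L i * v i = 0 → ∑ i, v i ^ 5 = 0 →
    (∃ t : ℂ, v = t • Q₁) ∨ (∃ t : ℂ, v = t • Q₂)) →
  ∃ (i : Fin 3) (k : Fin 5) (c : ℂ), c ≠ 0 ∧ L i = 0 ∧ L (i + 1) = c ∧ L (i + 2) = c * ζ ^ (k : ℕ)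

def StmtQuot : Prop := ∀ (K : Type) [Field K] [Algebra ℂ K] (ζ : ℂ) (x : Jx → K), Cov ζ x →
  ∀ (a : Jx → ℕ) (w l l' : K), InLine x a w → l ∈ AA x 1 → l' ∈ AA x 1 →
    LinearIndependent ℂ ![l, l'] → (l * w) ^ 5 ∈ AA x 5 → (l' * w) ^ 5 ∈ AA x 5 →
    (∃ c : ℂ, w = algebraMap ℂ K c) ∨
      ∃ (j₀ j₁ : Jx) (c : ℂ), j₁ ≠ j₀ ∧ w = algebraMap ℂ K c * (x j₁ / x j₀)

/-! ## D. The infinitesimal rigidity -/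

def StmtGal : Prop := ∀ (K : Type) [Field K] [Algebra ℂ K] (ζ : ℂ) (x : Jx → K), Cov ζ x →
  ∃ (Ψ : Type) (_ : Fintype Ψ) (π : Ψ → K →ₗ[ℂ] K),
    (∀ f, ∑ ψ, π ψ f = f) ∧
    (∀ ψ, ∃ a : Jx → ℕ, ∀ f, InLine x a (π ψ f)) ∧
    (∀ ψ, ∀ ρ ∈ KB x, ∀ f, π ψ (ρ * f) = ρ * π ψ f) ∧
    (∀ ψ (b : Jx → ℕ), ∃ ψ', ∀ f, mono x b * π ψ f = π ψ' (mono x b * f)) ∧
    (∀ ψ (b : Jx → ℕ), ∃ c : ℂ, π ψ (mono x b) = algebraMap ℂ K c * mono x b)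

def StmtVB : Prop := ∀ (K : Type) [Field K] [Algebra ℂ K] (ζ : ℂ) (x : Jx → K), Cov ζ x →
  ∀ (q : ℕ) (v : K), v ∈ VV x (5 * q) → v ∈ KB x → v ∈ AA x q

def StmtReg : Prop := ∀ (K : Type) [Field K] [Algebra ℂ K] (ζ : ℂ) (x : Jx → K), Cov ζ x →
  ∀ (a : Jx → ℕ) (f : K), InLine x a f → (∃ e : ℕ, ∀ v ∈ VV x e, v * f ∈ VV x (e + 5)) →
    f ^ 5 ∈ AA x 5

def StmtLinA : Prop := ∀ (K : Type) [Field K] [Algebra ℂ K] (ζ : ℂ) (x : Jx → K), Cov ζ x →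
  ∀ c : Jx → ℂ, (∀ i : Fin 3, ∑ k, hat x (i, k) * algebraMap ℂ K (c (i, k)) =
    ∑ k, hat x (0, k) * algebraMap ℂ K (c (0, k))) → c = 0

def StmtLinB : Prop := ∀ (K : Type) [Field K] [Algebra ℂ K] (ζ : ℂ) (x : Jx → K), Cov ζ x →
  ∀ l : Jx → K, (∀ j, l j ∈ AA x 1) →
    (∀ i : Fin 3, ∑ k, hat x (i, k) * l (i, k) = ∑ k, hat x (0, k) * l (0, k)) →
    ∃ s : Jx → ℂ, ∀ j, l j = aeval x (der (Matrix.diagonal s) (EE ζ j))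

def StmtLinC : Prop := ∀ (K : Type) [Field K] [Algebra ℂ K] (ζ : ℂ) (x : Jx → K), Cov ζ x →
  ∀ (j₀ j₁ : Jx), j₁ ≠ j₀ → ∀ s : Jx → ℂ,
    (∀ j, (x j₁ / x j₀ * aeval x (der (Matrix.diagonal s) (EE ζ j))) ^ 5 ∈ AA x 5) →
    ∃ c : ℂ, ∀ j, x j₁ / x j₀ * aeval x (der (Matrix.diagonal s) (EE ζ j)) =
      aeval x (der (Matrix.single j₀ j₁ c) (EE ζ j))

def StmtT : Prop := ∀ (K : Type) [Field K] [Algebra ℂ K] (ζ : ℂ) (x : Jx → K), Cov ζ x →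
  ∀ f : Jx → K, (∀ j, ∃ e : ℕ, ∀ v ∈ VV x e, v * f j ∈ VV x (e + 5)) →
    (∀ i : Fin 3, ∑ k, hat x (i, k) * f (i, k) = ∑ k, hat x (0, k) * f (0, k)) →
    ∃ A : Matrix Jx Jx ℂ, ∀ j, f j = aeval x (der A (EE ζ j))

def StmtLoc : Prop := ∀ (K : Type) [Field K] [Algebra ℂ K] (ζ : ℂ) (x : Jx → K), Cov ζ x →
  ∀ G : MvPolynomial Jx ℂ, aeval x G = 0 →
    ∃ H : MvPolynomial Jx ℂ, aeval x H ≠ 0 ∧ H * G ∈ Ideal.span (Set.range (EE ζ))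

section
variable {K : Type} [Field K] [Algebra ℂ K]

/-- The ideal of the covering curve. -/
noncomputable def II (x : Jx → K) : Ideal (MvPolynomial Jx ℂ) :=
  RingHom.ker (aeval x : MvPolynomial Jx ℂ →ₐ[ℂ] K)

end

def StmtInf : Prop := ∀ (K : Type) [Field K] [Algebra ℂ K] (ζ : ℂ) (x : Jx → K), Cov ζ x →
  InfRigid (II x)

/-! ## E. The curve -/

def StmtNondeg : Prop := ∀ (K : Type) [Field K] [Algebra ℂ K] (ζ : ℂ) (x : Jx → K), Cov ζ x →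
  ∀ c : Jx → ℂ, ∑ j, algebraMap ℂ K (c j) * x j = 0 → c = 0

def StmtTanUp : Prop := ∀ (K : Type) [Field K] [Algebra ℂ K] (ζ : ℂ) (x : Jx → K), Cov ζ x →
  ∀ v : Jx → ℂ, v ≠ 0 → (∀ G ∈ II x, eval v G = 0) →
    ∃ w₁ w₂ : Jx → ℂ, LinearIndependent ℂ ![w₁, w₂] ∧ ∀ G ∈ II x,
      ∑ i, w₁ i * eval v (pderiv i G) = 0 ∧ ∑ i, w₂ i * eval v (pderiv i G) = 0

def StmtTanLo : Prop := ∀ ζ : ℂ, IsPrimitiveRoot ζ 5 → ∀ v : Jx → ℂ, v ≠ 0 →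
  (∀ j, eval v (EE ζ j) = 0) → ∀ U : Submodule ℂ (Jx → ℂ),
    (∀ u ∈ U, ∀ j, ∑ i, u i * eval v (pderiv i (EE ζ j)) = 0) → finrank ℂ U ≤ 2

def StmtKrull : Prop := ∀ (K : Type) [Field K] [Algebra ℂ K] (ζ : ℂ) (x : Jx → K), Cov ζ x →
  ringKrullDim (MvPolynomial Jx ℂ ⧸ II x) = 2

def StmtNotRNC : Prop := ∀ (K : Type) [Field K] [Algebra ℂ K] (ζ : ℂ) (x : Jx → K), Cov ζ x →
  ¬ IsRationalNormal (II x)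

def StmtEx : Prop := ∀ ζ : ℂ, IsPrimitiveRoot ζ 5 →
  ∃ (K : Type) (_ : Field K) (_ : Algebra ℂ K) (x : Jx → K), Cov ζ x

/-! ## F. From infinitesimal rigidity to rigidity -/

section
variable {σ : Type} [Fintype σ] [DecidableEq σ]

/-- Modulo the ideal `𝔠` the family `J` is trivialised by a linear substitution which is the
identity at `x₀`. -/
def Triv {R : Type} [CommRing R] [Algebra ℂ R] (J : Ideal (MvPolynomial σ R))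
    (I : Ideal (MvPolynomial σ ℂ)) (x₀ : R →ₐ[ℂ] ℂ) (m₀ : ℕ) (𝔠 : Ideal R) : Prop :=
  ∃ g : Matrix σ σ R, (∀ i j, x₀ (g i j) = (1 : Matrix σ σ ℂ) i j) ∧
    ∀ m ≥ m₀, ∀ G ∈ I, G.IsHomogeneous m →
      lin g (MvPolynomial.map (algebraMap ℂ R) G) ∈ J ⊔ 𝔠.map (C : R →+* MvPolynomial σ R)

/-- The consequences of flatness which are used. -/
structure Fam {R : Type} [CommRing R] [Algebra ℂ R] (J : Ideal (MvPolynomial σ R))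
    (I : Ideal (MvPolynomial σ ℂ)) (x₀ : R →ₐ[ℂ] ℂ) (m₀ : ℕ) : Prop where
  homogJ : Homog J
  homogI : Homog I
  split : ∀ m ≥ m₀, ∃ π : MvPolynomial σ R →ₗ[R] MvPolynomial σ R,
    ∀ z : MvPolynomial σ R, z.IsHomogeneous m →
      (π z).IsHomogeneous m ∧ z - π z ∈ J ∧ (z ∈ J → π z = 0)
  fib : ∀ m ≥ m₀, ∀ G : MvPolynomial σ ℂ, G.IsHomogeneous m → (G ∈ fibre J x₀ ↔ G ∈ I)

end

def StmtSplit : Prop := ∀ (σ : Type) [Fintype σ] [DecidableEq σ] (R : Type) [CommRing R]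
  [IsNoetherianRing R] (J : Ideal (MvPolynomial σ R)) (m : ℕ),
  Module.Flat R (homogeneousSubmodule σ R m ⧸ part J m) →
  ∃ π : MvPolynomial σ R →ₗ[R] MvPolynomial σ R,
    ∀ z : MvPolynomial σ R, z.IsHomogeneous m →
      (π z).IsHomogeneous m ∧ z - π z ∈ J ∧ (z ∈ J → π z = 0)

def StmtRank : Prop := ∀ (σ : Type) [Fintype σ] [DecidableEq σ] (R : Type) [CommRing R]
  [Algebra ℂ R] [Algebra.FiniteType ℂ R] (J : Ideal (MvPolynomial σ R)) (m₀ : ℕ),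
  Homog J → (∀ m ≥ m₀, Module.Flat R (homogeneousSubmodule σ R m ⧸ part J m)) →
  ∀ x₀ : R →ₐ[ℂ] ℂ, ∃ r : R, x₀ r ≠ 0 ∧ ∀ x : R →ₐ[ℂ] ℂ, x r ≠ 0 → ∀ m ≥ m₀,
    finrank ℂ (part (fibre J x) m) = finrank ℂ (part (fibre J x₀) m)

def StmtLift : Prop := ∀ (σ : Type) [Fintype σ] [DecidableEq σ] (R : Type) [CommRing R]
  [Algebra ℂ R] (J : Ideal (MvPolynomial σ R)) (I : Ideal (MvPolynomial σ ℂ)) (x₀ : R →ₐ[ℂ] ℂ)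
  (m₀ : ℕ), Fam J I x₀ m₀ → InfRigid I →
  ∀ (𝔠 𝔠' : Ideal R) (ε : R), 𝔠 ≤ RingHom.ker x₀ → RingHom.ker x₀ * 𝔠 ≤ 𝔠' →
    𝔠 = 𝔠' ⊔ Ideal.span {ε} → Triv J I x₀ m₀ 𝔠 → Triv J I x₀ m₀ 𝔠'

def StmtArtin : Prop := ∀ (σ : Type) [Fintype σ] [DecidableEq σ] (R : Type) [CommRing R]
  [Algebra ℂ R] [IsNoetherianRing R] (J : Ideal (MvPolynomial σ R)) (I : Ideal (MvPolynomial σ ℂ))
  (x₀ : R →ₐ[ℂ] ℂ) (m₀ : ℕ), Fam J I x₀ m₀ → InfRigid I →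
  ∀ k : ℕ, Triv J I x₀ m₀ (RingHom.ker x₀ ^ k)

def StmtSpread : Prop := ∀ (R B : Type) [CommRing R] [Algebra ℂ R] [Algebra.FiniteType ℂ R]
  [CommRing B] [Algebra R B] [Algebra ℂ B] [IsScalarTower ℂ R B] [Algebra.FiniteType R B]
  (x₀ : R →ₐ[ℂ] ℂ), (∀ k : ℕ, Nonempty (B →ₐ[R] R ⧸ (RingHom.ker x₀) ^ k)) →
  ∃ r : R, x₀ r ≠ 0 ∧ ∀ x : R →ₐ[ℂ] ℂ, x r ≠ 0 →
    ∃ y : B →ₐ[ℂ] ℂ, ∀ a : R, y (algebraMap R B a) = x a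

def StmtTrivAlg : Prop := ∀ (σ : Type) [Fintype σ] [DecidableEq σ] (R : Type) [CommRing R]
  [Algebra ℂ R] (J : Ideal (MvPolynomial σ R)) (I : Ideal (MvPolynomial σ ℂ)) (x₀ : R →ₐ[ℂ] ℂ)
  (m₀ : ℕ), Fam J I x₀ m₀ →
  ∃ (B : Type) (_ : CommRing B) (_ : Algebra R B) (_ : Algebra ℂ B), IsScalarTower ℂ R B ∧
    Algebra.FiniteType R B ∧
    (∀ k : ℕ, Triv J I x₀ m₀ (RingHom.ker x₀ ^ k) →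
      Nonempty (B →ₐ[R] R ⧸ (RingHom.ker x₀) ^ k)) ∧
    ∀ (x : R →ₐ[ℂ] ℂ) (y : B →ₐ[ℂ] ℂ), (∀ a : R, y (algebraMap R B a) = x a) →
      ∃ g : GL σ ℂ, ∀ m ≥ m₀, ∀ G ∈ I, G.IsHomogeneous m →
        lin (g : Matrix σ σ ℂ) G ∈ fibre J x

def StmtRigidOf : Prop := ∀ (σ : Type) [Fintype σ] [DecidableEq σ] (I : Ideal (MvPolynomial σ ℂ)),
  Homog I → InfRigid I → Rigid I

end Pool.Agent.Helper64.Rig
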