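import Pool.Agent.Helper64.Rig.Goals

/-!
# Rigid curves in projective space: infinitesimal rigidity implies rigidity (assembly)
-/

namespace Pool.Agent.Helper64.Rig

open MvPolynomial Module

set_option linter.unusedSectionVars false
set_option linter.style.haveILetI false

section
variable {σ : Type} [Fintype σ] [DecidableEq σ]

theorem lin_comp {R : Type} [CommRing R] (g h : Matrix σ σ R) (F : MvPolynomial σ R) :
    lin h (lin g F) = lin (g * h) F := by
  have : (lin h).comp (lin g) = lin (g * h) := by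
    apply MvPolynomial.algHom_ext
    intro i
    simp only [AlgHom.comp_apply, lin, aeval_X, map_sum, map_mul, algHom_C, algebraMap_eq]
    simp only [Matrix.mul_apply, Finset.mul_sum, map_sum, map_mul, Finset.sum_mul]
    rw [Finset.sum_comm]
    exact Finset.sum_congr rfl fun _ _ => Finset.sum_congr rfl fun _ _ => by ring
  rw [← this]
  rfl

theorem lin_one {R : Type} [CommRing R] (F : MvPolynomial σ R) : lin (1 : Matrix σ σ R) F = F := by
  have : lin (1 : Matrix σ σ R) = AlgHom.id R _ := by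
    apply MvPolynomial.algHom_ext
    intro i
    simp only [lin, aeval_X, AlgHom.id_apply]
    rw [Finset.sum_eq_single i]
    · simp
    · intro j _ hj
      rw [Matrix.one_apply_ne (Ne.symm hj)]
      simp
    · simp
  rw [this]
  rfl

theorem lin_homog {R : Type} [CommRing R] (g : Matrix σ σ R) {F : MvPolynomial σ R} {m : ℕ}
    (hF : F.IsHomogeneous m) : (lin g F).IsHomogeneous m := by
  have := hF.aeval (fun i => ∑ j, C (g i j) * X j) (n := 1) (fun i => ?_)
  · simpa [lin] using this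
  · exact IsHomogeneous.sum _ _ _ fun j _ => by
      have := (isHomogeneous_C σ (g i j)).mul (isHomogeneous_X R j)
      simpa using this

theorem mem_map_lin {I : Ideal (MvPolynomial σ ℂ)} (g : GL σ ℂ) (G : MvPolynomial σ ℂ) :
    G ∈ I.map (lin (g : Matrix σ σ ℂ)) ↔ lin ((g⁻¹ : GL σ ℂ) : Matrix σ σ ℂ) G ∈ I := by
  have h1 : ∀ F, lin ((g⁻¹ : GL σ ℂ) : Matrix σ σ ℂ) (lin (g : Matrix σ σ ℂ) F) = F := fun F => by
    rw [lin_comp, ← Units.val_mul, mul_inv_cancel, Units.val_one, lin_one]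
  have h2 : ∀ F, lin (g : Matrix σ σ ℂ) (lin ((g⁻¹ : GL σ ℂ) : Matrix σ σ ℂ) F) = F := fun F => by
    rw [lin_comp, ← Units.val_mul, inv_mul_cancel, Units.val_one, lin_one]
  rw [Ideal.mem_map_iff_of_surjective _ (fun F => ⟨_, h2 F⟩)]
  constructor
  · rintro ⟨F, hF, rfl⟩
    rwa [h1]
  · intro h
    exact ⟨_, h, h2 G⟩

end

theorem mem_part {σ R : Type} [Fintype σ] [DecidableEq σ] [CommRing R] {J : Ideal (MvPolynomial σ R)} {m : ℕ}
    {z : homogeneousSubmodule σ R m} : z ∈ part J m ↔ (z : MvPolynomial σ R) ∈ J := Iff.rfl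

theorem pf_RigidOf (hSplit : StmtSplit) (hRank : StmtRank) (hArtin : StmtArtin)
    (hSpread : StmtSpread) (hTriv : StmtTrivAlg) : StmtRigidOf := by
  intro σ _ _ I hI hInf R _ _ _ J hJ x₀ hfib
  obtain ⟨hJh, m₁, hflat⟩ := hJ
  obtain ⟨m₂, hfib⟩ := hfib
  obtain ⟨m₀, hm1, hm2⟩ : ∃ m₀, m₁ ≤ m₀ ∧ m₂ ≤ m₀ := ⟨max m₁ m₂, le_max_left _ _, le_max_right _ _⟩
  haveI : IsNoetherianRing R := Algebra.FiniteType.isNoetherianRing ℂ R
  have hFam : Fam J I x₀ m₀ := ⟨hJh, hI,
    fun m hm => hSplit σ R J m (hflat m (hm1.trans hm)), fun m hm G hG => hfib m (hm2.trans hm) G hG⟩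
  have hk := hArtin σ R J I x₀ m₀ hFam hInf
  obtain ⟨B, _, _, _, hst, hft, hB1, hB2⟩ := hTriv σ R J I x₀ m₀ hFam
  obtain ⟨r₁, hr₁, h1⟩ := hSpread R B x₀ (fun k => hB1 k (hk k))
  obtain ⟨r₂, hr₂, h2⟩ := hRank σ R J m₀ hJh (fun m hm => hflat m (hm1.trans hm)) x₀
  refine ⟨r₁ * r₂, by rw [map_mul]; exact mul_ne_zero hr₁ hr₂, fun x hx => ?_⟩
  rw [map_mul] at hx
  obtain ⟨y, hy⟩ := h1 x (left_ne_zero_of_mul hx)
  obtain ⟨g, hg⟩ := hB2 x y hy
  refine ⟨g, m₀, fun m hm G hG => ?_⟩
  rw [mem_map_lin]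
  have e1 : ∀ F, lin ((g⁻¹ : GL σ ℂ) : Matrix σ σ ℂ) (lin (g : Matrix σ σ ℂ) F) = F := fun F => by
    rw [lin_comp, ← Units.val_mul, mul_inv_cancel, Units.val_one, lin_one]
  have e2 : ∀ F, lin (g : Matrix σ σ ℂ) (lin ((g⁻¹ : GL σ ℂ) : Matrix σ σ ℂ) F) = F := fun F => by
    rw [lin_comp, ← Units.val_mul, inv_mul_cancel, Units.val_one, lin_one]
  constructor
  · intro hGx
    -- the linear map from the degree `m` part of `I` to the degree `m` part of the fibre
    let φ : homogeneousSubmodule σ ℂ m →ₗ[ℂ] homogeneousSubmodule σ ℂ m :=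
      { toFun := fun z => ⟨lin (g : Matrix σ σ ℂ) z.1, lin_homog _ z.2⟩
        map_add' := fun a b => Subtype.ext (map_add _ _ _)
        map_smul' := fun a b => Subtype.ext (map_smul (lin (g : Matrix σ σ ℂ)) a b.1) }
    have hφ : Function.Injective φ := by
      intro a b hab
      have := congrArg Subtype.val hab
      apply Subtype.ext
      have h3 := congrArg (lin ((g⁻¹ : GL σ ℂ) : Matrix σ σ ℂ)) this
      simp only [φ, LinearMap.coe_mk, AddHom.coe_mk] at h3
      rwa [e1, e1] at h3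
    have hfd : FiniteDimensional ℂ (homogeneousSubmodule σ ℂ m) :=
      Module.Finite.iff_fg.2 (homogeneousSubmodule_fg _ _ _)
    have hle : (part I m).map φ ≤ part (fibre J x) m := by
      rintro _ ⟨z, hz, rfl⟩
      exact hg m hm z.1 hz z.2
    have hpart : part (fibre J x₀) m = part I m := by
      ext z
      exact hfib m (hm2.trans hm) z.1 z.2
    have heq : (part I m).map φ = part (fibre J x) m := by
      apply Submodule.eq_of_le_of_finrank_eq hle
      rw [(Submodule.equivMapOfInjective φ hφ (part I m)).symm.finrank_eq]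
      rw [h2 x (right_ne_zero_of_mul hx) m hm, hpart]
    have hmem : (⟨G, hG⟩ : homogeneousSubmodule σ ℂ m) ∈ (part I m).map φ := by
      rw [heq]
      exact hGx
    obtain ⟨z, hz, hzG⟩ := hmem
    have h3 := congrArg Subtype.val hzG
    simp only [φ, LinearMap.coe_mk, AddHom.coe_mk] at h3
    rw [← h3, e1]
    exact hz
  · intro h
    have := hg m hm _ h (lin_homog _ hG)
    rwa [e2] at this

end Pool.Agent.Helper64.Rig
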